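import Pool.Agent.Lib.MP_14e6e2_co.Ex.St

/-! The product of the shifted Laplacian eigenvalues is at most a product over the edges. -/

open Matrix Finset Polynomial

namespace Pool.Agent.Lib.MP_14e6e2_co.Ex

/-- a row with entries `0, 1, -1`, at most one `1` and at most one `-1` -/
def DetRow {α : Type} (r : α → ℝ) : Prop :=
  (∀ j, r j = 0 ∨ r j = 1 ∨ r j = -1) ∧ (∀ j k, r j = 1 → r k = 1 → j = k) ∧
    ∀ j k, r j = -1 → r k = -1 → j = k

theorem DetRow.comp {α β : Type} {r : α → ℝ} (h : DetRow r) {φ : β → α}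
    (hφ : Function.Injective φ) : DetRow fun j => r (φ j) :=
  ⟨fun _ => h.1 _, fun _ _ a b => hφ (h.2.1 _ _ a b), fun _ _ a b => hφ (h.2.2 _ _ a b)⟩

theorem DetRow.sum_zero {α : Type} [Fintype α] [DecidableEq α] [Nonempty α] {r : α → ℝ}
    (h : DetRow r) (h2 : ∀ j, ∃ k, k ≠ j ∧ r k ≠ 0) : ∑ j, r j = 0 := by
  obtain ⟨p, -, hp⟩ := h2 (Classical.arbitrary α)
  obtain ⟨q, hqp, hq⟩ := h2 p
  have key : ∀ p q, q ≠ p → r p = 1 → r q = -1 → ∑ j, r j = 0 := by
    intro p q hqp hp hq
    rw [Fintype.sum_eq_add p q hqp.symm, hp, hq]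
    · ring
    · intro j hj
      rcases h.1 j with e | e | e
      · exact e
      · exact absurd (h.2.1 _ _ e hp) hj.1
      · exact absurd (h.2.2 _ _ e hq) hj.2
  rcases h.1 p with e | e | e
  · exact absurd e hp
  · rcases h.1 q with f | f | f
    · exact absurd f hq
    · exact absurd (h.2.1 _ _ f e) hqp
    · exact key p q hqp e f
  · rcases h.1 q with f | f | f
    · exact absurd f hq
    · exact key q p hqp.symm f e
    · exact absurd (h.2.2 _ _ f e) hqp

theorem Det_fin : ∀ (n : ℕ) (A : Matrix (Fin n) (Fin n) ℝ), (∀ i, DetRow (A i)) → |A.det| ≤ 1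
  | 0, A, _ => by simp
  | n + 1, A, h => by
    by_cases h1 : ∃ i j, ∀ k, k ≠ j → A i k = 0
    · obtain ⟨i, j, hj⟩ := h1
      rw [det_succ_row A i, Fintype.sum_eq_single j (fun k hk => by rw [hj k hk]; simp)]
      have ih := Det_fin n (A.submatrix i.succAbove j.succAbove)
        (fun l => (h (i.succAbove l)).comp Fin.succAbove_right_injective)
      have ha : |A i j| ≤ 1 := by
        rcases (h i).1 j with e | e | e <;> simp [e]
      rw [abs_mul, abs_mul, abs_pow, abs_neg, abs_one, one_pow, one_mul]
      exact mul_le_one₀ ha (abs_nonneg _) ih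
    · push Not at h1
      have : A.det = 0 := by
        rw [← Matrix.exists_mulVec_eq_zero_iff]
        refine ⟨fun _ => 1, fun e => by simpa using congrFun e 0, ?_⟩
        funext i
        simpa [mulVec, dotProduct] using (h i).sum_zero (h1 i)
      simp [this]

theorem Det_sq {V : Type} [Fintype V] [DecidableEq V] (A : Matrix V V ℝ)
    (h : ∀ i, DetRow (A i)) : A.det * A.det ≤ 1 := by
  let e := (Fintype.equivFin V).symm
  have := Det_fin _ (A.submatrix e e) (fun i => (h (e i)).comp e.injective)
  rw [det_submatrix_equiv_self] at this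
  exact abs_le_one_iff_mul_self_le_one.1 this

theorem Det_le {V E : Type} [Fintype V] [DecidableEq V] [Fintype E] [DecidableEq E]
    (B : E → V → ℝ) (ω : E → ℝ) (hω : ∀ e, 0 ≤ ω e) (hB : ∀ e, DetRow (B e)) :
    (of fun i j => ∑ e, ω e * B e i * B e j).det ≤ ∏ e, (1 + ω e) := by
  have e1 : (of fun i j => ∑ e, ω e * B e i * B e j).det =
      ∑ f : V → E, (∏ i, ω (f i) * B (f i) i) * (of fun i => B (f i)).det := by
    have : (of fun i j => ∑ e, ω e * B e i * B e j : Matrix V V ℝ) =
        fun i => ∑ e, (ω e * B e i) • B e := by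
      funext i j; simp
    rw [this]
    refine ((detRowAlternating (n := V) (R := ℝ)).toMultilinearMap.map_sum
      (fun i e => (ω e * B e i) • B e)).trans (sum_congr rfl fun f _ => ?_)
    exact (detRowAlternating (n := V) (R := ℝ)).toMultilinearMap.map_smul_univ _ _
  rw [e1, prod_one_add, powerset_univ, ← sum_fiberwise univ (fun f : V → E => univ.image f)]
  refine sum_le_sum fun S _ => ?_
  by_cases hS : ∃ g : V → E, Function.Injective g ∧ univ.image g = S
  · obtain ⟨g, hg, rfl⟩ := hS
    rw [prod_image (fun a _ b _ e => hg e), ← sum_bij (s := (univ : Finset (Equiv.Perm V)))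
      (f := fun σ => (∏ i, ω (g i)) * (of fun i => B (g i)).det *
        ((Equiv.Perm.sign σ : ℝ) * ∏ i, (of fun i => B (g i)) (σ i) i))
      (fun σ _ => fun i => g (σ i))]
    · rw [← mul_sum, ← det_apply', mul_assoc]
      exact mul_le_of_le_one_right (prod_nonneg fun i _ => hω _) (Det_sq _ fun i => hB _)
    · intro σ _
      simp only [mem_filter, mem_univ, true_and]
      ext y
      simp only [mem_image, mem_univ, true_and]
      exact ⟨fun ⟨a, ha⟩ => ⟨_, ha⟩, fun ⟨a, ha⟩ => ⟨σ.symm a, by simpa using ha⟩⟩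
    · intro σ _ τ _ e
      exact Equiv.ext fun i => hg (congrFun e i)
    · intro f hf
      have hf' : univ.image f = univ.image g := (mem_filter.1 hf).2
      have h1 : ∀ i, ∃ j, g j = f i := fun i => by
        have : f i ∈ univ.image g := hf' ▸ mem_image_of_mem f (mem_univ i)
        simpa using this
      choose φ hφ using h1
      have h2 : Function.Surjective φ := fun j => by
        have : g j ∈ univ.image f := hf' ▸ mem_image_of_mem g (mem_univ j)
        obtain ⟨i, -, hi⟩ := mem_image.1 this
        exact ⟨i, hg ((hφ i).trans hi)⟩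
      exact ⟨Equiv.ofBijective φ h2.bijective_of_finite, mem_univ _, funext hφ⟩
    · intro σ _
      have h1 := det_permute σ (of fun i => B (g i))
      have h2 : (of fun i => B (g (σ i))) = (of fun i => B (g i)).submatrix σ id := rfl
      rw [h2, h1, prod_mul_distrib, Equiv.prod_comp σ (fun i => ω (g i))]
      simp only [of_apply]
      ring
  · refine le_trans (le_of_eq (sum_eq_zero fun f hf => ?_)) (prod_nonneg fun e _ => hω e)
    have : ¬ Function.Injective f := fun h => hS ⟨f, h, (mem_filter.1 hf).2⟩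
    obtain ⟨i, j, e, hij⟩ := Function.not_injective_iff.1 this
    rw [det_zero_of_row_eq hij (by funext k; simp [e]), mul_zero]

theorem Det_trace {V : Type} [Fintype V] [DecidableEq V] [Nonempty V] {N : ℕ} (A : Matrix V V ℝ)
    (z : Fin N → ℝ) (h : ∀ t : ℝ, (diagonal (fun _ => t) - A).det = t * ∏ i, (t - z i)) :
    A.trace = ∑ i, z i := by
  rw [trace_eq_neg_charpoly_nextCoeff, (char_iff A z).2 h,
    Monic.nextCoeff_mul monic_X (monic_prod_of_monic _ _ fun i _ => monic_X_sub_C _),
    prod_X_sub_C_nextCoeff]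
  have : (X : ℝ[X]).nextCoeff = 0 := by simpa using nextCoeff_X_add_C (0 : ℝ)
  simp [this]

theorem det_st : DetSt := by
  intro V _ _ G N hN z hz c x a hc hx ha
  classical
  obtain ⟨-, w, ⟨w0, ws, wa⟩, hd⟩ := hz
  have : Nonempty V := Fintype.card_pos_iff.1 (by omega)
  let r := Fintype.equivFin V
  let o : V → V → ℝ := fun u v => if r u < r v then w u v else 0
  have o0 : ∀ u v, 0 ≤ o u v := fun u v => by
    simp only [o]; split_ifs
    · exact w0 u v
    · exact le_rfl
  have wd : ∀ u, w u u = 0 := fun u => wa u u G.irrefl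
  have os : ∀ u v, o u v + o v u = w u v := fun u v => by
    simp only [o]
    rcases lt_trichotomy (r u) (r v) with h | h | h
    · simp [h, h.not_gt]
    · rw [r.injective h]; simp [wd]
    · simp [h, h.not_gt, ws u v]
  let ω : V ⊕ V × V → ℝ := Sum.elim (fun _ => x * c) fun p => x * o p.1 p.2
  let B : V ⊕ V × V → V → ℝ := Sum.elim (fun u j => if u = j then 1 else 0)
    fun p j => (if p.1 = j then 1 else 0) - (if p.2 = j then 1 else 0)
  have hω : ∀ e, 0 ≤ ω e := by
    rintro (u | p)
    · exact (mul_pos hx hc).le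
    · exact mul_nonneg hx.le (o0 _ _)
  have hB : ∀ e, DetRow (B e) := by
    rintro (u | ⟨u, v⟩)
    · refine ⟨fun j => ?_, fun j k => ?_, fun j k => ?_⟩ <;> simp only [B, Sum.elim_inl] <;>
        split_ifs <;> norm_num <;> simp_all
    · refine ⟨fun j => ?_, fun j k => ?_, fun j k => ?_⟩ <;> simp only [B, Sum.elim_inr] <;>
        split_ifs <;> norm_num <;> simp_all
  have key := Det_le B ω hω hB
  have e1 : (of fun i j => ∑ e, ω e * B e i * B e j : Matrix V V ℝ) =
      (-x) • (diagonal (fun _ => -c) - lap w) := by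
    ext i j
    have s1 : ∀ u v, x * o u v * ((if u = i then 1 else 0) - (if v = i then 1 else 0)) *
        ((if u = j then 1 else 0) - (if v = j then 1 else 0)) =
        ((if u = i then (if i = j then x * o i v else 0) else 0) +
          (if v = i then (if i = j then x * o u i else 0) else 0)) -
        ((if u = i then (if v = j then x * o i j else 0) else 0) +
          (if u = j then (if v = i then x * o j i else 0) else 0)) := by
      intro u v
      split_ifs <;> simp_all
    have s2 : ∀ u, x * c * (if u = i then 1 else 0) * (if u = j then 1 else 0) =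
        if u = i then (if i = j then x * c else 0) else 0 := by
      intro u
      split_ifs <;> simp_all
    simp only [of_apply, Fintype.sum_sum_type, Fintype.sum_prod_type, ω, B, Sum.elim_inl,
      Sum.elim_inr, s1, s2, sum_sub_distrib, sum_add_distrib]
    by_cases h : i = j
    · subst h
      simp [lap, ← os, sum_add_distrib, mul_sum, mul_add, mul_sub]
      ring
    · simp [lap, h, ← os]
      ring
  have e2 : ∏ i, (-c - z i) = (-1) ^ N * ∏ i, (z i + c) := by
    rw [show ((-1 : ℝ)) ^ N = ∏ _i : Fin N, (-1 : ℝ) by simp, ← prod_mul_distrib]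
    exact prod_congr rfl fun i _ => by ring
  have e3 : (-x) ^ (N + 1) * (-c * ((-1) ^ N * ∏ i, (z i + c))) =
      c * x ^ (N + 1) * ∏ i, (z i + c) := by
    have : ((-1 : ℝ)) ^ N * (-1) ^ N = 1 := by rw [← mul_pow]; simp
    rw [neg_pow x, pow_succ (-1 : ℝ)]
    linear_combination (c * x ^ (N + 1) * ∏ i, (z i + c)) * this
  rw [e1, det_smul, hd, hN, e2, e3, Fintype.prod_sum_type] at key
  refine key.trans ?_
  simp only [ω, Sum.elim_inl, Sum.elim_inr, prod_const, card_univ, hN]
  refine mul_le_mul_of_nonneg_left ?_ (by positivity)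
  have ha1 : 0 < 1 + a := by linarith
  set κ := Real.log (1 + a) - a / (1 + a) with hκ
  have κ0 : 0 ≤ κ := by
    have := Real.one_sub_inv_le_log_of_pos ha1
    have e : 1 - (1 + a)⁻¹ = a / (1 + a) := by field_simp; ring
    linarith
  have pt : ∀ p : V × V, 1 + x * o p.1 p.2 ≤
      Real.exp ((if r p.1 < r p.2 ∧ G.Adj p.1 p.2 then κ else 0) + x * o p.1 p.2 / (1 + a)) := by
    intro p
    split_ifs with h
    · have := Real.add_one_le_exp ((x * o p.1 p.2 - a) / (1 + a))
      rw [show κ + x * o p.1 p.2 / (1 + a) =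
        Real.log (1 + a) + (x * o p.1 p.2 - a) / (1 + a) by rw [hκ]; ring, Real.exp_add,
        Real.exp_log ha1]
      refine le_trans (le_of_eq ?_) (mul_le_mul_of_nonneg_left this ha1.le)
      field_simp; ring
    · have : o p.1 p.2 = 0 := by
        simp only [o]; split_ifs with h'
        · exact wa _ _ fun h'' => h ⟨h', h''⟩
        · rfl
      simp [this]
  refine (prod_le_prod (fun p _ => add_nonneg zero_le_one (mul_nonneg hx.le (o0 _ _)))
    fun p _ => pt p).trans ?_
  rw [← Real.exp_sum, Real.exp_le_exp, sum_add_distrib]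
  refine add_le_add ?_ (le_of_eq ?_)
  · rw [← sum_filter, sum_const, nsmul_eq_mul]
    refine mul_le_mul_of_nonneg_right ?_ κ0
    rw [← Set.ncard_coe_finset]
    refine Nat.cast_le.2 (Set.ncard_le_ncard_of_injOn (fun p : V × V => s(p.1, p.2))
      (fun p hp => ?_) (fun p hp q hq e => ?_) (Set.toFinite _))
    · exact (mem_filter.1 hp).2.2
    · have h1 := (mem_filter.1 hp).2.1
      have h2 := (mem_filter.1 hq).2.1
      rcases Sym2.eq_iff.1 e with ⟨e1, e2⟩ | ⟨e1, e2⟩
      · exact Prod.ext e1 e2
      · rw [e1, e2] at h1; exact absurd h1 h2.not_gt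
  · have t := Det_trace _ z hd
    have t2 : (lap w).trace = ∑ u, ∑ v, w u v := by simp [lap, trace, wd]
    have t3 : ∑ u, ∑ v, w u v = 2 * ∑ u, ∑ v, o u v := by
      simp only [← os, sum_add_distrib]
      rw [sum_comm (f := fun u v => o v u)]; ring
    rw [← sum_div, ← mul_sum, Fintype.sum_prod_type, ← t, t2, t3]
    ring

end Pool.Agent.Lib.MP_14e6e2_co.Ex
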