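import Pool.Agent.Lib.MP_14e6e2_co.Ex.St

/-! Independent sets force many small eigenvalues. -/

open Polynomial Matrix

namespace Pool.Agent.Lib.MP_14e6e2_co.Ex

variable {V : Type} [Fintype V] [DecidableEq V]

theorem Ind_herm {w : Matrix V V ℝ} (hw : ∀ u v, w u v = w v u) : (lap w).IsHermitian := by
  ext u v
  by_cases h : u = v
  · subst h; simp
  · simp [lap, h, Ne.symm h, hw u v]

/-- sums over the eigenvalues are sums over `0` and the given tuple -/
theorem Ind_sum {A : Matrix V V ℝ} (hA : A.IsHermitian) {N : ℕ} {z : Fin N → ℝ}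
    (h : ∀ t : ℝ, (diagonal (fun _ => t) - A).det = t * ∏ i, (t - z i)) (g : ℝ → ℝ) :
    ∑ j, g (hA.eigenvalues j) = g 0 + ∑ i, g (z i) := by
  have h1 := (char_iff A z).2 h
  have h2 := hA.roots_charpoly_eq_eigenvalues
  have hp : (∏ i, (X - C (z i)) : ℝ[X]) ≠ 0 :=
    Finset.prod_ne_zero_iff.2 fun i _ => X_sub_C_ne_zero _
  have h3 : (∏ i, (X - C (z i)) : ℝ[X]).roots = Multiset.map z Finset.univ.val := by
    rw [Polynomial.roots_prod _ _ hp]; simp
  rw [h1, roots_mul (mul_ne_zero X_ne_zero hp), roots_X, h3] at h2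
  have h4 := congrArg (fun m => (Multiset.map g m).sum) h2
  simp only [Multiset.map_add, Multiset.map_singleton, Multiset.sum_add, Multiset.sum_singleton,
    Multiset.map_map] at h4
  rw [Finset.sum_eq_multiset_sum, Finset.sum_eq_multiset_sum]
  exact h4.symm

/-- the diagonal entries are averages of the eigenvalues -/
theorem Ind_diag {A : Matrix V V ℝ} (hA : A.IsHermitian) :
    ∃ U : V → V → ℝ, (∀ v, A v v = ∑ j, U v j ^ 2 * hA.eigenvalues j) ∧
      (∀ v, ∑ j, U v j ^ 2 = 1) ∧ ∀ j, ∑ v, U v j ^ 2 = 1 := by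
  refine ⟨fun v j => (hA.eigenvectorUnitary : Matrix V V ℝ) v j, fun v => ?_, fun v => ?_,
    fun j => ?_⟩
  · conv_lhs => rw [hA.spectral_theorem, Unitary.conjStarAlgAut_apply]
    rw [Matrix.mul_apply]
    refine Finset.sum_congr rfl fun j _ => ?_
    rw [Matrix.mul_diagonal, star_apply]
    simp only [Function.comp_apply, RCLike.ofReal_real_eq_id, id, star_trivial]
    ring
  · have h := congrFun (congrFun (Unitary.coe_mul_star_self hA.eigenvectorUnitary) v) v
    rw [Matrix.mul_apply, Matrix.one_apply_eq] at h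
    rw [← h]
    refine Finset.sum_congr rfl fun j _ => ?_
    simp [sq]
  · have h := congrFun (congrFun (Unitary.coe_star_mul_self hA.eigenvectorUnitary) j) j
    rw [Matrix.mul_apply, Matrix.one_apply_eq] at h
    rw [← h]
    refine Finset.sum_congr rfl fun v _ => ?_
    simp [sq]

theorem ind_st : IndSt := by
  intro V _ _ G N _ z hz I hI s _
  obtain ⟨-, w, ⟨h0, hs, hE⟩, hd⟩ := hz
  have hA := Ind_herm hs
  obtain ⟨U, hU, r1, c1⟩ := Ind_diag hA
  have hdiag : ∀ v, lap w v v = ∑ u, w v u := fun v => by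
    simp [lap, hE v v (G.loopless.irrefl v)]
  have tr : ∑ v, ∑ u, w v u = ∑ i, z i := by
    have h1 := hA.trace_eq_sum_eigenvalues
    have h2 := Ind_sum hA hd id
    simp only [id, zero_add] at h2
    rw [← h2]
    simp only [Matrix.trace, diag_apply, hdiag] at h1
    simpa using h1
  have half : 2 * ∑ v ∈ I, ∑ u, w v u ≤ ∑ v, ∑ u, w v u := by
    have e1 : ∑ v ∈ I, ∑ u, w v u = ∑ v ∈ I, ∑ u ∈ Iᶜ, w v u := by
      refine Finset.sum_congr rfl fun v hv => ?_
      rw [← Finset.sum_add_sum_compl I, Finset.sum_eq_zero, zero_add]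
      intro u hu
      by_cases h : v = u
      · subst h; exact hE v v (G.loopless.irrefl v)
      · exact hE v u (hI (Finset.mem_coe.2 hv) (Finset.mem_coe.2 hu) h)
    have e2 : ∑ v ∈ I, ∑ u ∈ Iᶜ, w v u ≤ ∑ u ∈ Iᶜ, ∑ v, w u v := by
      refine (Finset.sum_comm (s := I) (t := Iᶜ) (f := fun v u => w v u)).trans_le ?_
      refine Finset.sum_le_sum fun u _ => ?_
      refine le_trans (le_of_eq (Finset.sum_congr rfl fun v _ => hs v u)) ?_
      exact Finset.sum_le_sum_of_subset_of_nonneg (Finset.subset_univ _) fun v _ _ => h0 u v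
    have e3 := Finset.sum_add_sum_compl I (fun v => ∑ u, w v u)
    linarith
  have key : s * I.card - ∑ j, max (s - hA.eigenvalues j) 0 ≤ ∑ v ∈ I, ∑ u, w v u := by
    have e1 : ∑ v ∈ I, ∑ u, w v u = ∑ j, (∑ v ∈ I, U v j ^ 2) * hA.eigenvalues j := by
      simp only [Finset.sum_mul]
      refine Eq.trans (Finset.sum_congr rfl fun v _ => (hdiag v).symm.trans (hU v)) ?_
      exact Finset.sum_comm
    have e2 : (I.card : ℝ) = ∑ j, ∑ v ∈ I, U v j ^ 2 := by
      rw [Finset.sum_comm]
      simp only [r1, Finset.sum_const, nsmul_eq_mul, mul_one]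
    rw [e1, e2, Finset.mul_sum, ← Finset.sum_sub_distrib]
    refine Finset.sum_le_sum fun j _ => ?_
    have a0 : 0 ≤ ∑ v ∈ I, U v j ^ 2 := Finset.sum_nonneg fun v _ => sq_nonneg _
    have a1 : ∑ v ∈ I, U v j ^ 2 ≤ 1 := by
      rw [← c1 j]
      exact Finset.sum_le_sum_of_subset_of_nonneg (Finset.subset_univ _) fun v _ _ => sq_nonneg _
    have b0 := le_max_left (s - hA.eigenvalues j) 0
    have b1 := le_max_right (s - hA.eigenvalues j) 0
    nlinarith [mul_le_mul_of_nonneg_left b0 a0, mul_le_mul_of_nonneg_right a1 b1]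
  have e := Ind_sum hA hd (fun t => max (s - t) 0)
  simp only [sub_zero] at e
  rw [max_eq_left ‹0 ≤ s›] at e
  rw [e] at key
  linarith

end Pool.Agent.Lib.MP_14e6e2_co.Ex
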