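import Pool.Agent.Lib.MP_14e6e2_co.Ex.St

/-! Rayleigh quotient of a Lipschitz function. -/

open Polynomial Matrix

namespace Pool.Agent.Lib.MP_14e6e2_co.Ex

variable {V : Type} [Fintype V] [DecidableEq V]

theorem Lip_spec (L : Matrix V V ℝ) (hL : L.IsHermitian) :
    ∃ U : Matrix V V ℝ, U * Uᵀ = 1 ∧ Uᵀ * L = diagonal hL.eigenvalues * Uᵀ := by
  have h1 : (hL.eigenvectorUnitary : Matrix V V ℝ) * (hL.eigenvectorUnitary : Matrix V V ℝ)ᵀ = 1 := by
    have := Unitary.coe_mul_star_self hL.eigenvectorUnitary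
    simpa [star_eq_conjTranspose] using this
  have h2 : (hL.eigenvectorUnitary : Matrix V V ℝ)ᵀ * (hL.eigenvectorUnitary : Matrix V V ℝ) = 1 :=
    mul_eq_one_comm.1 h1
  refine ⟨_, h1, ?_⟩
  have h3 : L = (hL.eigenvectorUnitary : Matrix V V ℝ) * diagonal hL.eigenvalues *
      (hL.eigenvectorUnitary : Matrix V V ℝ)ᵀ := by
    have := hL.spectral_theorem
    rw [Unitary.conjStarAlgAut_apply] at this
    simpa [star_eq_conjTranspose] using this
  calc _ = (hL.eigenvectorUnitary : Matrix V V ℝ)ᵀ * ((hL.eigenvectorUnitary : Matrix V V ℝ) *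
      diagonal hL.eigenvalues * (hL.eigenvectorUnitary : Matrix V V ℝ)ᵀ) := by rw [← h3]
    _ = _ := by rw [← Matrix.mul_assoc, ← Matrix.mul_assoc, h2, Matrix.one_mul]

theorem Lip_ray (L U : Matrix V V ℝ) (μ : V → ℝ) (h1 : U * Uᵀ = 1)
    (h2 : Uᵀ * L = diagonal μ * Uᵀ) (h0 : L *ᵥ (fun _ => (1 : ℝ)) = 0) (j₀ : V) (ρ : ℝ)
    (hρ : 0 < ρ) (hj : ∀ j, j ≠ j₀ → ρ ≤ μ j) (hj₀ : 0 ≤ μ j₀) (f : V → ℝ) :
    ρ * ((Fintype.card V : ℝ) * ∑ u, f u ^ 2 - (∑ u, f u) ^ 2) ≤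
      (Fintype.card V : ℝ) * (f ⬝ᵥ L *ᵥ f) := by
  have dot : ∀ x y : V → ℝ, x ⬝ᵥ y = (Uᵀ *ᵥ x) ⬝ᵥ (Uᵀ *ᵥ y) := by
    intro x y
    rw [dotProduct_mulVec, vecMul_transpose, mulVec_mulVec, h1, one_mulVec]
  have hL : ∀ (x : V → ℝ) j, (Uᵀ *ᵥ (L *ᵥ x)) j = μ j * (Uᵀ *ᵥ x) j := by
    intro x j
    rw [mulVec_mulVec, h2, ← mulVec_mulVec, mulVec_diagonal]
  obtain ⟨a, ha⟩ : ∃ a, a = Uᵀ *ᵥ (fun _ => (1 : ℝ)) := ⟨_, rfl⟩
  obtain ⟨c, hc⟩ : ∃ c, c = Uᵀ *ᵥ f := ⟨_, rfl⟩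
  have a0 : ∀ j, j ≠ j₀ → a j = 0 := by
    intro j h
    have := hL (fun _ => 1) j
    rw [h0, mulVec_zero, ← ha] at this
    have hp : μ j ≠ 0 := (hρ.trans_le (hj j h)).ne'
    exact (mul_eq_zero.1 this.symm).resolve_left hp
  have e1 : (Fintype.card V : ℝ) = a j₀ * a j₀ := by
    have := dot (fun _ => 1) (fun _ => 1)
    rw [← ha] at this
    simp only [dotProduct] at this
    rw [Finset.sum_eq_single j₀ (f := fun i => a i * a i) (fun j _ h => by rw [a0 j h, zero_mul])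
      (fun h => absurd (Finset.mem_univ _) h)] at this
    simpa using this
  have e2 : ∑ u, f u = a j₀ * c j₀ := by
    have := dot (fun _ => 1) f
    rw [← ha, ← hc] at this
    simp only [dotProduct] at this
    rw [Finset.sum_eq_single j₀ (f := fun i => a i * c i) (fun j _ h => by rw [a0 j h, zero_mul])
      (fun h => absurd (Finset.mem_univ _) h)] at this
    simpa using this
  have e3 : ∑ u, f u ^ 2 = ∑ j, c j ^ 2 := by
    have := dot f f
    rw [← hc] at this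
    simpa [dotProduct, sq] using this
  have e4 : f ⬝ᵥ L *ᵥ f = ∑ j, μ j * c j ^ 2 := by
    rw [dot, ← hc]
    refine Finset.sum_congr rfl fun j _ => ?_
    rw [hL, ← hc]; ring
  have e5 : ρ * (∑ j, c j ^ 2 - c j₀ ^ 2) ≤ ∑ j, μ j * c j ^ 2 := by
    rw [← Finset.add_sum_erase _ _ (Finset.mem_univ j₀),
      ← Finset.add_sum_erase _ (fun j => μ j * c j ^ 2) (Finset.mem_univ j₀),
      add_sub_cancel_left, Finset.mul_sum]
    have t1 : ∑ j ∈ Finset.univ.erase j₀, ρ * c j ^ 2 ≤ ∑ j ∈ Finset.univ.erase j₀, μ j * c j ^ 2 :=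
      Finset.sum_le_sum fun j h =>
        mul_le_mul_of_nonneg_right (hj j (Finset.ne_of_mem_erase h)) (sq_nonneg _)
    have t2 : 0 ≤ μ j₀ * c j₀ ^ 2 := mul_nonneg hj₀ (sq_nonneg _)
    linarith
  rw [e2, e3, e4]
  have hn : (0 : ℝ) ≤ (Fintype.card V : ℝ) := Nat.cast_nonneg _
  have := mul_le_mul_of_nonneg_left e5 hn
  refine le_trans (le_of_eq ?_) this
  rw [e1]; ring

theorem Lip_sq (f : V → ℝ) : ∑ u, ∑ v, (f u - f v) ^ 2 =
    2 * ((Fintype.card V : ℝ) * ∑ u, f u ^ 2 - (∑ u, f u) ^ 2) := by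
  have e : ∀ u v, (f u - f v) ^ 2 = f u ^ 2 + f v ^ 2 - 2 * (f u * f v) := fun u v => by ring
  simp only [e, Finset.sum_sub_distrib, Finset.sum_add_distrib, ← Finset.mul_sum, ← Finset.sum_mul,
    Finset.sum_const, Finset.card_univ, nsmul_eq_mul]
  ring

theorem Lip_form (w : Matrix V V ℝ) (hw : ∀ u v, w u v = w v u) (f : V → ℝ) :
    2 * (f ⬝ᵥ lap w *ᵥ f) = ∑ u, ∑ v, w u v * (f u - f v) ^ 2 := by
  have e1 : f ⬝ᵥ lap w *ᵥ f = ∑ u, ∑ v, (w u v * f u ^ 2 - w u v * (f u * f v)) := by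
    unfold lap
    rw [sub_mulVec]
    refine Finset.sum_congr rfl fun u _ => ?_
    rw [Pi.sub_apply, mulVec_diagonal, Finset.sum_sub_distrib, ← Finset.sum_mul, mul_sub]
    congr 1
    · ring
    · simp only [mulVec, dotProduct, Finset.mul_sum]
      exact Finset.sum_congr rfl fun v _ => by ring
  have e2 : ∑ u, ∑ v, (w u v * f u ^ 2 - w u v * (f u * f v)) =
      ∑ u, ∑ v, (w u v * f v ^ 2 - w u v * (f u * f v)) := by
    rw [Finset.sum_comm]
    exact Finset.sum_congr rfl fun u _ => Finset.sum_congr rfl fun v _ => by rw [hw v u]; ring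
  rw [two_mul]
  nth_rewrite 1 [e1]
  rw [e1, e2]
  nth_rewrite 1 [← e2]
  rw [← Finset.sum_add_distrib]
  refine Finset.sum_congr rfl fun u _ => ?_
  rw [← Finset.sum_add_distrib]
  exact Finset.sum_congr rfl fun v _ => by ring

theorem Lip_core (G : SimpleGraph V) (N : ℕ) (hN : Fintype.card V = N + 1) (z : Fin N → ℝ)
    (hz : z ∈ cone G N) (f : V → ℝ) (hf : ∀ u v, G.Adj u v → |f u - f v| ≤ 1) (ρ : ℝ)
    (hρ : 0 < ρ) (hi : ∀ i, ρ ≤ z i) :
    ρ * ∑ u, ∑ v, (f u - f v) ^ 2 ≤ (N + 1) * ∑ i, z i := by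
  obtain ⟨-, w, ⟨w0, w1, w2⟩, hd⟩ := hz
  have hL : (lap w).IsHermitian := by
    ext u v
    by_cases h : u = v
    · subst h; simp
    · simp [lap, h, Ne.symm h, w1 u v]
  have hc := (char_iff _ _).2 hd
  have hm : Multiset.map hL.eigenvalues Finset.univ.val = 0 ::ₘ Multiset.map z Finset.univ.val := by
    have r1 := hL.roots_charpoly_eq_eigenvalues
    have r2 : (lap w).charpoly =
        ((0 ::ₘ Multiset.map z Finset.univ.val).map fun a => X - C a).prod := by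
      rw [hc, Multiset.map_cons, Multiset.prod_cons, Multiset.map_map]
      simp [Finset.prod]
    rw [r2, roots_multiset_prod_X_sub_C] at r1
    rw [r1]; rfl
  have hs : ∑ u, ∑ v, w u v = ∑ i, z i := by
    have t1 := hL.trace_eq_sum_eigenvalues
    have t2 := congrArg Multiset.sum hm
    rw [Multiset.sum_cons, zero_add] at t2
    have t3 : (lap w).trace = ∑ u, ∑ v, w u v := by
      refine Finset.sum_congr rfl fun u _ => ?_
      simp [lap, w2 u u G.irrefl]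
    rw [← t3, t1]
    exact t2
  have hp : ∀ j, 0 ≤ hL.eigenvalues j := by
    intro j
    have : hL.eigenvalues j ∈ (0 ::ₘ Multiset.map z Finset.univ.val) := by
      rw [← hm]; exact Multiset.mem_map_of_mem _ (Finset.mem_univ j)
    rcases Multiset.mem_cons.1 this with h | h
    · exact h.ge
    · obtain ⟨i, -, h⟩ := Multiset.mem_map.1 h
      rw [← h]; exact hρ.le.trans (hi i)
  obtain ⟨j₀, hj⟩ : ∃ j₀, Finset.univ.filter (fun j => hL.eigenvalues j < ρ) = {j₀} := by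
    rw [← Finset.card_eq_one]
    have t := congrArg (Multiset.countP fun a => a < ρ) hm
    rw [Multiset.countP_map, Multiset.countP_cons, if_pos hρ, Multiset.countP_eq_zero.2] at t
    · exact t
    · intro a ha
      obtain ⟨i, -, h⟩ := Multiset.mem_map.1 ha
      rw [← h]; exact not_lt.2 (hi i)
  have hj' : ∀ j, j ≠ j₀ → ρ ≤ hL.eigenvalues j := by
    intro j h
    by_contra hlt
    have : j ∈ Finset.univ.filter (fun j => hL.eigenvalues j < ρ) :=
      Finset.mem_filter.2 ⟨Finset.mem_univ _, not_le.1 hlt⟩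
    rw [hj] at this
    exact h (Finset.mem_singleton.1 this)
  obtain ⟨U, u1, u2⟩ := Lip_spec _ hL
  have h0 : lap w *ᵥ (fun _ => (1 : ℝ)) = 0 := by
    ext u
    unfold lap
    rw [sub_mulVec, Pi.sub_apply, mulVec_diagonal]
    simp [mulVec, dotProduct]
  have k1 := Lip_ray _ U _ u1 u2 h0 j₀ ρ hρ hj' (hp j₀) f
  have k2 := Lip_form w w1 f
  have k3 : ∑ u, ∑ v, w u v * (f u - f v) ^ 2 ≤ ∑ u, ∑ v, w u v := by
    refine Finset.sum_le_sum fun u _ => Finset.sum_le_sum fun v _ => ?_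
    by_cases h : G.Adj u v
    · exact mul_le_of_le_one_right (w0 u v) ((sq_le_one_iff_abs_le_one _).2 (hf u v h))
    · rw [w2 u v h, zero_mul]
  rw [Lip_sq]
  rw [hN] at k1 ⊢
  push_cast at k1 ⊢
  have hn : (0 : ℝ) ≤ (N : ℝ) + 1 := by positivity
  have k4 := mul_le_mul_of_nonneg_left (k2.trans_le (k3.trans_eq hs)) hn
  linarith

theorem lip_st : LipSt := fun _ _ _ G N hN z hz f hf ρ hρ hi => Lip_core G N hN z hz f hf ρ hρ hi

end Pool.Agent.Lib.MP_14e6e2_co.Ex
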