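import Pool.Agent.Lib.MP_14e6e2_co.Ex.St

/-! Layer cake bounds from a bound on the counting function. -/

open MeasureTheory Set

namespace Pool.Agent.Lib.MP_14e6e2_co.Ex

theorem log_layer {N : ℕ} (z : Fin N → ℝ) {a b : ℝ} (hab : a ≤ b) (hz : ∀ i, a ≤ z i)
    (φ ψ : ℝ → ℝ) (hφ : ContinuousOn φ (Icc a b)) (hψ : ContinuousOn ψ (Icc a b))
    (h0 : ∀ s ∈ Icc a b, 0 ≤ φ s) (h : ∀ s ∈ Icc a b, ψ s ≤ (N - cnt z s) * φ s) :
    ∫ s in a..b, ψ s ≤ ∑ i, ∫ s in a..min (z i) b, φ s := by
  have iφ : IntervalIntegrable φ volume a b := hφ.intervalIntegrable_of_Icc hab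
  have iI : ∀ i, IntervalIntegrable (indicator {x | x ≤ min (z i) b} φ) volume a b := fun i =>
    ⟨iφ.1.indicator measurableSet_Iic, iφ.2.indicator measurableSet_Iic⟩
  have e : ∀ i, ∫ s in a..min (z i) b, φ s = ∫ s in a..b, indicator {x | x ≤ min (z i) b} φ s :=
    fun i => (intervalIntegral.integral_indicator ⟨le_min (hz i) hab, min_le_right _ _⟩).symm
  simp only [e]
  rw [← intervalIntegral.integral_finsetSum fun i _ => iI i]
  refine intervalIntegral.integral_mono_on hab (hψ.intervalIntegrable_of_Icc hab) ?_ fun s hs => ?_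
  · have := IntervalIntegrable.sum Finset.univ fun i _ => iI i
    rwa [Finset.sum_fn] at this
  · refine (h s hs).trans ?_
    have e2 : ((N : ℝ) - cnt z s) = ∑ i : Fin N, (1 - if z i ≤ s then (1 : ℝ) else 0) := by
      rw [Finset.sum_sub_distrib, cnt]; simp
    rw [e2, Finset.sum_mul]
    refine Finset.sum_le_sum fun i _ => ?_
    by_cases hi : z i ≤ s
    · rw [if_pos hi, sub_self, zero_mul]
      by_cases hm : s ∈ {x | x ≤ min (z i) b}
      · rw [indicator_of_mem hm]; exact h0 s hs
      · rw [indicator_of_notMem hm]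
    · rw [if_neg hi, sub_zero, one_mul,
        indicator_of_mem (show s ∈ {x | x ≤ min (z i) b} from le_min (not_le.1 hi).le hs.2)]

theorem layer_st : LayerSt := by
  intro N z ε hε hz h
  have key := log_layer z (a := 0) (b := 1.7) (by norm_num) hz (fun _ => 1)
    (fun s => N * (Real.exp (-s) - ε)) continuousOn_const (by fun_prop) (fun _ _ => zero_le_one)
    (fun s hs => by
      have := h s hs.1 (hs.2.trans (by norm_num))
      linarith)
  have e1 : ∫ s in (0 : ℝ)..1.7, (N : ℝ) * (Real.exp (-s) - ε) =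
      N * (1 - Real.exp (-1.7) - 1.7 * ε) := by
    rw [intervalIntegral.integral_const_mul, intervalIntegral.integral_sub
      (by apply Continuous.intervalIntegrable; fun_prop) intervalIntegrable_const,
      intervalIntegral.integral_comp_neg fun x => Real.exp x]
    simp
  simp only [intervalIntegral.integral_const, smul_eq_mul, mul_one, sub_zero] at key
  rw [e1] at key
  have e2 : ∑ i, max (1.7 - z i) 0 = N * 1.7 - ∑ i, min (z i) 1.7 := by
    have : ∀ i, max (1.7 - z i) 0 = 1.7 - min (z i) 1.7 := fun i => by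
      rcases le_total (z i) 1.7 with h1 | h1
      · rw [min_eq_left h1, max_eq_left (by linarith)]
      · rw [min_eq_right h1, max_eq_right (by linarith), sub_self]
    simp only [this, Finset.sum_sub_distrib]
    simp
  have e3 : Real.exp (-1.7) ≤ 0.183 := by
    have h1 := Real.sum_le_exp_of_nonneg (x := 1.7) (by norm_num) 9
    simp only [Finset.sum_range_succ, Finset.sum_range_zero, Nat.factorial] at h1
    rw [Real.exp_neg]
    refine inv_le_of_inv_le₀ (by norm_num) (le_trans ?_ h1)
    norm_num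
  have hN : (0 : ℝ) ≤ N := Nat.cast_nonneg N
  rw [e2]
  nlinarith [mul_le_mul_of_nonneg_left e3 hN]

/-- a polynomial above `(1 - exp (-s)) / s` on `(0,4]` -/
noncomputable def logP (s : ℝ) : ℝ :=
  1 - s / 2 + s ^ 2 / 6 - s ^ 3 / 24 + s ^ 4 / 120 - s ^ 5 / 720 + s ^ 6 / 5040 - s ^ 7 / 40320 +
    s ^ 8 / 362880 - s ^ 9 / 3628800 + s ^ 10 / 39916800 - s ^ 11 / 479001600 +
    s ^ 12 / 6227020800 + 2 * s ^ 13 / 87178291200

theorem log_exp {s : ℝ} (h0 : 0 ≤ s) (h4 : s ≤ 4) : 1 - Real.exp (-s) ≤ s * logP s := by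
  have h := Complex.exp_bound' (x := ((-s : ℝ) : ℂ)) (n := 14) (by
    rw [Complex.norm_real, Real.norm_eq_abs, abs_neg, abs_of_nonneg h0]
    norm_num; linarith)
  have e : Complex.exp ((-s : ℝ) : ℂ) - ∑ m ∈ Finset.range 14, ((-s : ℝ) : ℂ) ^ m / m.factorial =
      ((Real.exp (-s) - ∑ m ∈ Finset.range 14, (-s) ^ m / m.factorial : ℝ) : ℂ) := by
    push_cast; rfl
  rw [e, Complex.norm_real, Complex.norm_real, Real.norm_eq_abs, Real.norm_eq_abs, abs_neg,
    abs_of_nonneg h0] at h
  have h2 := (abs_le.1 h).1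
  simp only [Finset.sum_range_succ, Finset.sum_range_zero, Nat.factorial] at h2
  unfold logP
  norm_num at h2 ⊢
  linarith

theorem log_cont : Continuous logP := by unfold logP; fun_prop

theorem log_int : ∫ s in (0 : ℝ)..4, logP s ≤ 1.968 := by
  unfold logP
  simp (disch := (apply Continuous.intervalIntegrable; fun_prop)) only
    [intervalIntegral.integral_add, intervalIntegral.integral_sub, intervalIntegral.integral_div,
    intervalIntegral.integral_const_mul, integral_pow, integral_id, intervalIntegral.integral_const]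
  norm_num

theorem log_st : LogSt := by
  intro N z a ε ha ha1 hε hz h
  have hN : (0 : ℝ) ≤ N := Nat.cast_nonneg N
  have h4 : a ≤ 4 := by linarith
  have hc : ContinuousOn (fun s : ℝ => s⁻¹) (Icc a 4) :=
    continuousOn_inv₀.mono fun s hs => (ha.trans_le hs.1).ne'
  have key := log_layer z h4 hz (fun s => s⁻¹) (fun s => N * ((1 - ε) * s⁻¹ - logP s)) hc
    (continuousOn_const.mul ((continuousOn_const.mul hc).sub log_cont.continuousOn))
    (fun s hs => inv_nonneg.2 (ha.le.trans hs.1)) (fun s hs => by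
      have s0 : 0 < s := ha.trans_le hs.1
      have h1 := h s s0.le hs.2
      have h2 := mul_le_mul_of_nonneg_left (log_exp s0.le hs.2) hN
      have e : (N : ℝ) * ((1 - ε) * s⁻¹ - logP s) = (N * (1 - ε - s * logP s)) * s⁻¹ := by
        field_simp
      rw [e]
      exact mul_le_mul_of_nonneg_right (by linarith) (inv_nonneg.2 s0.le))
  have iP : ∀ u v : ℝ, IntervalIntegrable logP volume u v := fun u v =>
    log_cont.intervalIntegrable u v
  have e1 : ∫ s in a..4, (N : ℝ) * ((1 - ε) * s⁻¹ - logP s) =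
      N * ((1 - ε) * Real.log (4 / a) - ∫ s in a..4, logP s) := by
    rw [intervalIntegral.integral_const_mul, intervalIntegral.integral_sub
      ((hc.intervalIntegrable_of_Icc h4).const_mul (1 - ε)) (iP _ _),
      intervalIntegral.integral_const_mul, integral_inv_of_pos ha (by norm_num)]
  have e2 : ∫ s in a..4, logP s ≤ 1.968 := by
    have h1 := intervalIntegral.integral_add_adjacent_intervals (iP 0 a) (iP a 4)
    have h2 : 0 ≤ ∫ s in (0 : ℝ)..a, logP s := by
      refine intervalIntegral.integral_nonneg ha.le fun s hs => ?_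
      rcases hs.1.eq_or_lt with rfl | s0
      · norm_num [logP]
      · have h3 := log_exp s0.le (hs.2.trans h4)
        have h5 : Real.exp (-s) ≤ 1 := Real.exp_le_one_iff.2 (by linarith)
        exact nonneg_of_mul_nonneg_right (by rw [mul_comm]; linarith) s0
    linarith [log_int]
  have e3 : ∑ i, ∫ s in a..min (z i) 4, s⁻¹ ≤ ∑ i, Real.log (z i) - N * Real.log a := by
    have : (N : ℝ) * Real.log a = ∑ _i : Fin N, Real.log a := by simp
    rw [this, ← Finset.sum_sub_distrib]
    refine Finset.sum_le_sum fun i _ => ?_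
    have m0 : 0 < min (z i) 4 := ha.trans_le (le_min (hz i) h4)
    rw [integral_inv_of_pos ha m0, Real.log_div m0.ne' ha.ne']
    have := Real.log_le_log m0 (min_le_left (z i) 4)
    linarith
  have e4 : Real.log (4 / a) = 2 * Real.log 2 - Real.log a := by
    rw [Real.log_div (by norm_num) ha.ne', show (4 : ℝ) = 2 ^ 2 by norm_num, Real.log_pow]
    norm_num
  have e5 := Real.log_two_gt_d9
  rw [e1] at key
  have e6 : -0.582 - ε * Real.log (4 / a) ≤
      (1 - ε) * Real.log (4 / a) - (∫ s in a..4, logP s) + Real.log a := by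
    nlinarith
  have := mul_le_mul_of_nonneg_left e6 hN
  linarith

end Pool.Agent.Lib.MP_14e6e2_co.Ex
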