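import Pool.Agent.Lib.MP_14e6e2_co.Ex.St

/-! A cone has almost all its mass where the sum is small. -/

open MeasureTheory Set
open scoped ENNReal

namespace Pool.Agent.Lib.MP_14e6e2_co.Ex

theorem tail_scale {N : ℕ} {C : Set (Fin N → ℝ)} (hC : MeasurableSet C)
    (hs : ∀ l ∈ C, ∀ r : ℝ, 0 < r → r • l ∈ C) {r : ℝ} (hr : 0 < r) :
    ∫⁻ x, C.indicator (fun x => ENNReal.ofReal (Real.exp (-(r * ∑ i, x i)))) x =
      ENNReal.ofReal ((r ^ N)⁻¹) * E C := by
  have hm := meas_dens hC
  have e : ∀ x : Fin N → ℝ, C.indicator (fun x => ENNReal.ofReal (Real.exp (-(r * ∑ i, x i)))) x =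
      C.indicator (fun x => ENNReal.ofReal (Real.exp (-∑ i, x i))) (r • x) := by
    intro x
    by_cases h : x ∈ C
    · rw [indicator_of_mem h, indicator_of_mem (hs x h r hr)]
      simp [Finset.mul_sum]
    · have h' : r • x ∉ C := fun hh => h (by
        have := hs _ hh r⁻¹ (inv_pos.2 hr)
        rwa [inv_smul_smul₀ hr.ne'] at this)
      rw [indicator_of_notMem h, indicator_of_notMem h']
  simp only [e]
  rw [← lintegral_map hm (measurable_const_smul r), Measure.map_addHaar_smul _ hr.ne',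
    lintegral_smul_measure, E]
  simp [abs_of_pos hr]

theorem tail_num {N : ℕ} (hN : 0 < N) :
    Real.exp (-(0.001 * (1.002 * N))) * ((0.999 : ℝ) ^ N)⁻¹ ≤ 10 ^ 6 / N := by
  have hN' : (0 : ℝ) < N := by exact_mod_cast hN
  have h1 : (0.999 : ℝ)⁻¹ ≤ Real.exp 0.0010011 := by
    have := Real.add_one_le_exp (0.0010011 : ℝ)
    refine le_trans ?_ this
    norm_num
  have h2 : ((0.999 : ℝ) ^ N)⁻¹ ≤ Real.exp (N * 0.0010011) := by
    rw [← inv_pow, Real.exp_nat_mul]
    exact pow_le_pow_left₀ (by norm_num) h1 N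
  have h3 : Real.exp (-(0.001 * (1.002 * N))) * Real.exp (N * 0.0010011) =
      (Real.exp (0.00000045 * N) * Real.exp (0.00000045 * N))⁻¹ := by
    rw [← Real.exp_add, ← Real.exp_add, ← Real.exp_neg]; congr 1; ring
  have h4 := Real.add_one_le_exp (0.00000045 * N : ℝ)
  have h5 : (N : ℝ) / 10 ^ 6 ≤ Real.exp (0.00000045 * N) * Real.exp (0.00000045 * N) := by
    have h6 : (0.00000045 * N + 1) * (0.00000045 * N + 1) ≤
        Real.exp (0.00000045 * N) * Real.exp (0.00000045 * N) :=
      mul_le_mul h4 h4 (by positivity) (Real.exp_pos _).le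
    nlinarith [sq_nonneg (0.00000045 * (N : ℝ) - 1)]
  calc _ ≤ Real.exp (-(0.001 * (1.002 * N))) * Real.exp (N * 0.0010011) :=
        mul_le_mul_of_nonneg_left h2 (Real.exp_pos _).le
    _ ≤ ((N : ℝ) / 10 ^ 6)⁻¹ := by
        rw [h3]; exact inv_anti₀ (by positivity) h5
    _ = 10 ^ 6 / N := by rw [inv_div]

theorem tail_st : TailSt := by
  intro N C hN hC _ hs
  have hT : MeasurableSet {z : Fin N → ℝ | ∑ i, z i ≤ 1.002 * N} :=
    measurableSet_le (by fun_prop) measurable_const
  have hm : Measurable (C.indicator fun x : Fin N → ℝ =>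
      ENNReal.ofReal (Real.exp (-(0.999 * ∑ i, x i)))) := Measurable.indicator (by fun_prop) hC
  have pt : ∀ x : Fin N → ℝ, C.indicator (fun x => ENNReal.ofReal (Real.exp (-∑ i, x i))) x ≤
      (C ∩ {z | ∑ i, z i ≤ 1.002 * N}).indicator
        (fun x => ENNReal.ofReal (Real.exp (-∑ i, x i))) x +
      ENNReal.ofReal (Real.exp (-(0.001 * (1.002 * N)))) *
        C.indicator (fun x => ENNReal.ofReal (Real.exp (-(0.999 * ∑ i, x i)))) x := by
    intro x
    by_cases h : x ∈ C
    · by_cases h2 : ∑ i, x i ≤ 1.002 * N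
      · rw [indicator_of_mem h, indicator_of_mem (show x ∈ C ∩ _ from ⟨h, h2⟩)]
        exact le_self_add
      · rw [indicator_of_mem h, indicator_of_mem h,
          ← ENNReal.ofReal_mul (Real.exp_pos _).le, ← Real.exp_add]
        refine le_add_left (ENNReal.ofReal_le_ofReal (Real.exp_le_exp.2 ?_))
        push Not at h2
        linarith
    · rw [indicator_of_notMem h]; exact zero_le
  calc E C ≤ _ := lintegral_mono pt
    _ = E (C ∩ {z | ∑ i, z i ≤ 1.002 * N}) +
        ENNReal.ofReal (Real.exp (-(0.001 * (1.002 * N)))) *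
          (ENNReal.ofReal (((0.999 : ℝ) ^ N)⁻¹) * E C) := by
        rw [lintegral_add_left (meas_dens (hC.inter hT)), lintegral_const_mul _ hm,
          tail_scale hC hs (by norm_num)]
        rfl
    _ ≤ _ := by
        rw [← mul_assoc, ← ENNReal.ofReal_mul (Real.exp_pos _).le]
        gcongr
        exact tail_num hN

end Pool.Agent.Lib.MP_14e6e2_co.Ex
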