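import Pool.Agent.Lib.MP_14e6e2_co.Ex.Hall
import Pool.Agent.Lib.MP_14e6e2_co.Ex.Tail
import Pool.Agent.Lib.MP_14e6e2_co.Ex.Det
import Pool.Agent.Lib.MP_14e6e2_co.Ex.Log
import Pool.Agent.Lib.MP_14e6e2_co.Ex.Ind
import Pool.Agent.Lib.MP_14e6e2_co.Ex.Lip

/-! The exact comparison between a graph and its suspension for three families. -/

open MeasureTheory Set
open scoped ENNReal

namespace Pool.Agent.Lib.MP_14e6e2_co.Ex

/-- the eighth root of a large number -/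
theorem root8 {M : ℝ} (hM : 10 ^ 40 ≤ M) : ∃ q : ℝ, 10 ^ 5 ≤ q ∧ M = q ^ 8 ∧
    Real.exp (-(Real.log M / 4)) = (q ^ 2)⁻¹ ∧ 8 ≤ Real.log M ∧ Real.log M ≤ 8 * q := by
  have M0 : 0 < M := lt_of_lt_of_le (by norm_num) hM
  have e8 : M = Real.exp (Real.log M / 8) ^ 8 := by
    rw [← Real.exp_nat_mul]; push_cast
    rw [mul_div_cancel₀ _ (by norm_num : (8 : ℝ) ≠ 0), Real.exp_log M0]
  have q5 : (10 : ℝ) ^ 5 ≤ Real.exp (Real.log M / 8) := by
    refine le_of_not_gt fun h => ?_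
    have := pow_lt_pow_left₀ h (Real.exp_pos _).le (by norm_num : 8 ≠ 0)
    rw [← e8] at this
    norm_num at this hM; linarith
  refine ⟨Real.exp (Real.log M / 8), q5, e8, ?_, ?_, ?_⟩
  · rw [← Real.exp_nat_mul, ← Real.exp_neg]; congr 1; push_cast; ring
  · refine le_of_not_gt fun h => ?_
    have h1 : Real.exp (Real.log M / 8) ≤ Real.exp 1 := Real.exp_le_exp.2 (by linarith)
    have := Real.exp_one_lt_d9
    norm_num at q5; linarith
  · have := Real.add_one_le_exp (Real.log M / 8)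
    linarith

variable {V : Type} [Fintype V] [DecidableEq V]

/-- the spectral condition -/
def Spc (G : SimpleGraph V) (N : ℕ) : Prop :=
  ∀ z ∈ cone G N, ∑ i, z i ≤ 1.002 * N → (∀ s, 0 ≤ s → s ≤ 4 →
    cnt z s ≤ N * (1 - Real.exp (-s) + 2 * Real.exp (-(Real.log (N + 1) / 4)))) →
    ∃ i, z i < 3 / 8 * Real.log (N + 1) * ((N : ℝ) + 2)⁻¹

theorem of_spc (G : SimpleGraph V) (d : ℕ) (hn : Fintype.card V = d + 2)
    (hd : (10 : ℝ) ^ 40 ≤ (d : ℝ) + 2) (h : Spc G (d + 1)) : prop G ≤ prop (susp G) := by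
  have hd' : Fintype.card (Option V) = (d + 1) + 2 := by rw [Fintype.card_option, hn]
  rw [prop_eq G hn, prop_eq (susp G) hd']
  obtain ⟨M, hm⟩ : ∃ M : ℝ, M = d + 2 := ⟨_, rfl⟩
  rw [← hm] at hd
  obtain ⟨q, q5, q8, qe, l8, lq⟩ := root8 hd
  have M0 : 0 < M := by rw [hm]; positivity
  have q0 : 0 < q := lt_of_lt_of_le (by norm_num) q5
  have hβ : (M + 1)⁻¹ * (M + 1) = 1 := inv_mul_cancel₀ (by positivity)
  have eM : ((d + 1 : ℕ) : ℝ) + 1 = M := by rw [hm]; push_cast; ring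
  have eM2 : ((d + 1 : ℕ) : ℝ) + 2 = M + 1 := by rw [hm]; push_cast; ring
  have eM3 : (d : ℝ) + 1 = M - 1 := by rw [hm]; ring
  have L1 : Real.log M ≤ Real.log (2 * (M + 1)) := Real.log_le_log M0 (by linarith)
  have L2 : Real.log (2 * (M + 1)) ≤ 9 * q := by
    have a1 : Real.log (2 * (M + 1)) ≤ Real.log (4 * M) :=
      Real.log_le_log (by positivity) (by norm_num at hd; linarith)
    rw [Real.log_mul (by norm_num) M0.ne'] at a1
    have := Real.log_le_sub_one_of_pos (show (0 : ℝ) < 4 by norm_num)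
    norm_num at q5; linarith
  have d1 : 1 ≤ d := by
    have : (1 : ℝ) ≤ d := by norm_num at hd; linarith
    exact_mod_cast this
  have q1 : 1 ≤ q := le_trans (by norm_num) q5
  have e1 : (q ^ 2)⁻¹ ≤ 1 := inv_le_one_of_one_le₀ (one_le_pow₀ q1)
  have mS : MeasurableSet {z : Fin (d + 1) → ℝ | ∑ i, z i ≤ 1.002 * ((d + 1 : ℕ) : ℝ)} :=
    measurableSet_le (by fun_prop) measurable_const
  have key := hall_st d M (M + 1)⁻¹ (Real.log (2 * (M + 1))) (q ^ 2)⁻¹ (3 / 8 * Real.log M) d1 hm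
    hβ (by linarith) (by positivity) e1 (by linarith) (by
      rw [← qe, ← Real.exp_nat_mul]; exact le_of_eq (by congr 1; push_cast; ring)) (by
      have a1 : (M - 1) * (M + 1)⁻¹ ≤ 1 := by
        rw [← div_eq_mul_inv, div_le_one (by positivity)]; linarith
      have a2 : 1 + 18 * q ≤ (M - 1) * (q ^ 2)⁻¹ := by
        rw [← div_eq_mul_inv, le_div_iff₀ (by positivity), q8]
        have b1 : q ^ 3 * 100 ≤ q ^ 3 * q ^ 5 :=
          mul_le_mul_of_nonneg_left (le_trans (by norm_num at q5; linarith)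
            (le_self_pow₀ q1 (by norm_num))) (by positivity)
        have b2 : q ^ 2 ≤ q ^ 3 := pow_le_pow_right₀ q1 (by norm_num)
        have b3 : 1 ≤ q ^ 3 := one_le_pow₀ q1
        nlinarith
      rw [eM3]
      have a3 := mul_le_mul a1 L2 (by linarith) zero_le_one
      nlinarith)
    (cone G (d + 1) ∩ {z | ∑ i, z i ≤ 1.002 * ((d + 1 : ℕ) : ℝ)}) (cone (susp G) (d + 2))
    ((measurable_cone G (d + 1)).inter mS) (measurable_cone (susp G) (d + 2))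
    (fun l hl => hl.1.1) (fun y hy s hs k => by
      have := cone_susp (m := d + 1) hn hy.1 (c := (M + 1)⁻¹ * s) (by positivity) k
      rwa [show (((d + 1 : ℕ) : ℝ) + 2) * ((M + 1)⁻¹ * s) = s by
        rw [← mul_assoc, eM2, mul_comm (M + 1), hβ, one_mul]] at this)
    (fun z hz hc => by
      have := h z hz.1 hz.2 (by rw [eM, qe]; exact hc)
      rwa [eM, eM2] at this)
  have tl := tail_st (d + 1) (cone G (d + 1)) (Nat.succ_pos d) (measurable_cone G (d + 1))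
    (fun l hl => hl.1) (fun l hl r hr => cone_smul hn hl hr)
  have f1 : E (cone G (d + 1)) ≠ ⊤ :=
    ne_top_of_le_ne_top ENNReal.one_ne_top (E_le_one fun l hl => hl.1)
  have f2 : E (cone G (d + 1) ∩ {z | ∑ i, z i ≤ 1.002 * ((d + 1 : ℕ) : ℝ)}) ≠ ⊤ :=
    ne_top_of_le_ne_top ENNReal.one_ne_top (E_le_one fun l hl => hl.1.1)
  have f3 : E (cone (susp G) (d + 2)) ≠ ⊤ :=
    ne_top_of_le_ne_top ENNReal.one_ne_top (E_le_one fun l hl => hl.1)
  have k2 := ENNReal.toReal_mono f3 key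
  have k3 := ENNReal.toReal_mono (ENNReal.add_ne_top.2
    ⟨f2, ENNReal.mul_ne_top ENNReal.ofReal_ne_top f1⟩) tl
  rw [ENNReal.toReal_add f2 (ENNReal.mul_ne_top ENNReal.ofReal_ne_top f1), ENNReal.toReal_mul,
    ENNReal.toReal_ofReal (by positivity)] at k3
  obtain ⟨τ, hτ⟩ : ∃ τ : ℝ, τ = 10 ^ 6 / ((d + 1 : ℕ) : ℝ) := ⟨_, rfl⟩
  have τ0 : 0 ≤ τ := by rw [hτ]; positivity
  have τ1 : τ ≤ 2 * 10 ^ 6 / q ^ 8 := by
    rw [hτ, ← q8, div_le_div_iff₀ (by positivity) M0, ← eM]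
    have : (1 : ℝ) ≤ ((d + 1 : ℕ) : ℝ) := by exact_mod_cast Nat.succ_pos d
    linarith
  have τ2 : τ ≤ 1 / 2 := by
    refine τ1.trans ?_
    rw [← q8, div_le_div_iff₀ M0 (by norm_num)]
    norm_num at hd ⊢; linarith
  have g1 : 1 + 2 * τ ≤ 1 - 2 * Real.exp (-Real.log (2 * (M + 1))) -
      (M + 1)⁻¹ * Real.log (2 * (M + 1)) + (q ^ 2)⁻¹ ^ 3 / 512 := by
    rw [Real.exp_neg, Real.exp_log (by positivity)]
    have a1 : (M + 1)⁻¹ ≤ 1 / q ^ 8 := by
      rw [← q8, one_div]; exact inv_anti₀ M0 (by linarith)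
    have a2 : 2 * (2 * (M + 1))⁻¹ = (M + 1)⁻¹ := by field_simp
    have a3 := mul_le_mul a1 L2 (by linarith) (by positivity)
    have a4 : 2 * (2 * 10 ^ 6 / q ^ 8) + 1 / q ^ 8 + 1 / q ^ 8 * (9 * q) ≤
        (q ^ 2)⁻¹ ^ 3 / 512 := by
      have : (q ^ 2)⁻¹ ^ 3 / 512 = q ^ 2 / 512 / q ^ 8 := by field_simp
      rw [this, le_div_iff₀ (by positivity)]
      field_simp
      norm_num at q5 ⊢
      nlinarith
    linarith
  rw [ENNReal.toReal_mul, ENNReal.toReal_ofReal (by linarith)] at k2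
  rw [← hτ] at k3
  have b0 : 0 ≤ (E (cone G (d + 1) ∩ {z | ∑ i, z i ≤ 1.002 * ((d + 1 : ℕ) : ℝ)})).toReal :=
    ENNReal.toReal_nonneg
  have a0 : 0 ≤ (E (cone G (d + 1))).toReal := ENNReal.toReal_nonneg
  have k4 := (mul_le_mul_of_nonneg_right g1 b0).trans k2
  change _ ≤ (E (cone (susp G) (d + 2))).toReal
  generalize (E (cone (susp G) (d + 2))).toReal = c at *
  generalize (E (cone G (d + 1) ∩ {z | ∑ i, z i ≤ 1.002 * ((d + 1 : ℕ) : ℝ)})).toReal = b at *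
  generalize (E (cone G (d + 1))).toReal = a at *
  have k5 := mul_le_mul_of_nonneg_left k3 (show 0 ≤ 1 + 2 * τ by linarith)
  nlinarith [mul_nonneg (mul_nonneg τ0 a0) (show 0 ≤ 1 - 2 * τ by linarith)]

theorem spc_edges (G : SimpleGraph V) (N : ℕ) (hn : Fintype.card V = N + 1)
    (hd : (10 : ℝ) ^ 40 ≤ (N : ℝ) + 1) (h : (G.edgeSet.ncard : ℝ) ≤ 1.03 * (N + 1)) :
    Spc G N := by
  intro z hz hS hc
  by_contra hh
  simp only [not_exists, not_lt] at hh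
  obtain ⟨M, hm⟩ : ∃ M : ℝ, M = N + 1 := ⟨_, rfl⟩
  have eM : (N : ℝ) + 2 = M + 1 := by rw [hm]; ring
  rw [eM] at hh
  rw [← hm] at hd h hc hh
  obtain ⟨q, q5, q8, qe, l8, lq⟩ := root8 hd
  have M0 : 0 < M := by rw [hm]; positivity
  have q0 : 0 < q := lt_of_lt_of_le (by norm_num) q5
  have q1 : 1 ≤ q := le_trans (by norm_num) q5
  have b0 : 0 < (M + 1)⁻¹ := by positivity
  have z1 : ∀ i, (M + 1)⁻¹ ≤ z i := fun i => le_trans (by nlinarith) (hh i)
  rw [qe] at hc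
  have lo := log_st N z (M + 1)⁻¹ (2 * (q ^ 2)⁻¹) b0 (inv_le_one_of_one_le₀ (by linarith))
    (by positivity) z1 hc
  have c0 : 0 < (M ^ 2)⁻¹ := by positivity
  have up := det_st V G N hn z hz (M ^ 2)⁻¹ 64 31 c0 (by norm_num) (by norm_num)
  have zp : ∀ i, 0 < z i + (M ^ 2)⁻¹ := fun i => by linarith [z1 i]
  have pp0 : 0 < ∏ i, (z i + (M ^ 2)⁻¹) := Finset.prod_pos fun i _ => zp i
  have up2 := Real.log_le_log (by positivity) up
  rw [Real.log_mul (by positivity) pp0.ne', Real.log_mul c0.ne' (by positivity),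
    Real.log_mul (by positivity) (Real.exp_pos _).ne', Real.log_exp, Real.log_pow, Real.log_pow,
    Real.log_inv, Real.log_pow, Real.log_prod fun i _ => (zp i).ne'] at up2
  have s1 : ∑ i, Real.log (z i) ≤ ∑ i, Real.log (z i + (M ^ 2)⁻¹) :=
    Finset.sum_le_sum fun i _ => Real.log_le_log (b0.trans_le (z1 i)) (by linarith)
  have l64 : Real.log 64 = 6 * Real.log 2 := by
    rw [show (64 : ℝ) = 2 ^ 6 by norm_num, Real.log_pow]; norm_num
  have l32 : Real.log (1 + 31) = 5 * Real.log 2 := by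
    rw [show (1 + 31 : ℝ) = 2 ^ 5 by norm_num, Real.log_pow]; norm_num
  have t1 := Real.log_two_gt_d9
  have t2 := Real.log_two_lt_d9
  have s2 : M * Real.log (1 + 64 * (M ^ 2)⁻¹) ≤ 1 := by
    have a1 := Real.log_le_sub_one_of_pos (show 0 < 1 + 64 * (M ^ 2)⁻¹ by positivity)
    have a2 : M * (64 * (M ^ 2)⁻¹) ≤ 1 := by
      rw [show M * (64 * (M ^ 2)⁻¹) = 64 / M by field_simp, div_le_one M0]
      norm_num at hd; linarith
    nlinarith
  have s3 : 2 * (q ^ 2)⁻¹ * Real.log (4 / (M + 1)⁻¹) ≤ 0.0002 := by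
    have a1 : Real.log (4 / (M + 1)⁻¹) ≤ Real.log (8 * M) :=
      Real.log_le_log (by positivity) (by
        rw [div_inv_eq_mul]; norm_num at hd; linarith)
    rw [Real.log_mul (by norm_num) M0.ne'] at a1
    have a2 := Real.log_le_sub_one_of_pos (show (0 : ℝ) < 8 by norm_num)
    have a3 : Real.log (4 / (M + 1)⁻¹) ≤ 9 * q := by norm_num at q5; linarith
    have a4 : 2 * (q ^ 2)⁻¹ * (9 * q) ≤ 0.0002 := by
      rw [show 2 * (q ^ 2)⁻¹ * (9 * q) = 18 / q by field_simp; norm_num, div_le_iff₀ q0]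
      norm_num at q5 ⊢; linarith
    exact (mul_le_mul_of_nonneg_left a3 (by positivity)).trans a4
  have N0 : (0 : ℝ) ≤ N := Nat.cast_nonneg N
  have s4 := mul_le_mul_of_nonneg_left s3 N0
  have s5 := mul_le_mul_of_nonneg_right h (show 0 ≤ 5 * Real.log 2 - 31 / (1 + 31) by
    norm_num at t1 ⊢; linarith)
  have s6 := mul_le_mul_of_nonneg_left t1.le M0.le
  have s7 : 10 ^ 5 * q ≤ M := by
    rw [q8]
    have : q ^ 2 ≤ q ^ 8 := pow_le_pow_right₀ q1 (by norm_num)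
    nlinarith
  rw [l64, l32] at up2
  push_cast at up2
  rw [← hm] at up2
  have eN : (N : ℝ) = M - 1 := by rw [hm]; ring
  rw [eN] at lo s4 hS
  norm_num at s7 q5 hd
  linarith

theorem spc_ind (G : SimpleGraph V) (N : ℕ) (hn : Fintype.card V = N + 1)
    (hd : (10 : ℝ) ^ 40 ≤ (N : ℝ) + 1) (I : Finset V) (hI : G.IsIndepSet (I : Set V))
    (h : 0.82 * ((N : ℝ) + 1) ≤ I.card) : Spc G N := by
  intro z hz hS hc
  exfalso
  obtain ⟨q, q5, q8, qe, l8, lq⟩ := root8 hd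
  rw [qe] at hc
  have q0 : 0 < q := lt_of_lt_of_le (by norm_num) q5
  have a1 := layer_st N z (2 * (q ^ 2)⁻¹) (by positivity) hz.1 hc
  have a2 := ind_st V G N hn z hz I hI 1.7 (by norm_num)
  have a3 : (q ^ 2)⁻¹ ≤ 0.001 := by
    rw [inv_le_comm₀ (by positivity) (by norm_num)]
    norm_num at q5 ⊢; nlinarith
  have a4 := mul_le_mul_of_nonneg_left a3 (Nat.cast_nonneg (α := ℝ) N)
  norm_num at hd
  linarith

theorem spc_lip (G : SimpleGraph V) (N : ℕ) (hn : Fintype.card V = N + 1)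
    (hd : (10 : ℝ) ^ 40 ≤ (N : ℝ) + 1) (f : V → ℝ) (hf : ∀ u v, G.Adj u v → |f u - f v| ≤ 1)
    (h : 3 * ((N : ℝ) + 1) ^ 3 / Real.log (N + 1) ≤ ∑ u, ∑ v, (f u - f v) ^ 2) : Spc G N := by
  intro z hz hS _
  by_contra hh
  simp only [not_exists, not_lt] at hh
  obtain ⟨q, q5, q8, qe, l8, lq⟩ := root8 hd
  have N0 : (0 : ℝ) ≤ N := Nat.cast_nonneg N
  have l0 : 0 < Real.log (N + 1) := by linarith
  have r0 : 0 < 3 / 8 * Real.log (N + 1) * ((N : ℝ) + 2)⁻¹ := by positivity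
  have a1 := lip_st V G N hn z hz f hf _ r0 hh
  have a2 := mul_le_mul_of_nonneg_left h r0.le
  have a3 := mul_le_mul_of_nonneg_left hS (show (0 : ℝ) ≤ N + 1 by positivity)
  have a4 := (a2.trans a1).trans a3
  rw [show 3 / 8 * Real.log (N + 1) * ((N : ℝ) + 2)⁻¹ * (3 * ((N : ℝ) + 1) ^ 3 / Real.log (N + 1))
    = 9 / 8 * ((N : ℝ) + 1) ^ 3 / (N + 2) by field_simp; norm_num,
    div_le_iff₀ (by positivity)] at a4
  nlinarith [pow_nonneg N0 3, pow_nonneg N0 2]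

theorem fin (G : SimpleGraph V) (n : ℕ) (hn : Fintype.card V = n) (h0 : 10 ^ 40 ≤ n)
    (h : (G.edgeSet.ncard : ℝ) ≤ 1.03 * n ∨
      (∃ I : Finset V, G.IsIndepSet (I : Set V) ∧ 0.82 * (n : ℝ) ≤ I.card) ∨
      ∃ f : V → ℝ, (∀ u v, G.Adj u v → |f u - f v| ≤ 1) ∧
        3 * (n : ℝ) ^ 3 / Real.log n ≤ ∑ u, ∑ v, (f u - f v) ^ 2) :
    prop G ≤ prop (susp G) := by
  obtain ⟨d, rfl⟩ : ∃ d, n = d + 2 := ⟨n - 2, by
    have : 2 ≤ n := le_trans (by norm_num) h0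
    omega⟩
  have h1 : (10 : ℝ) ^ 40 ≤ ((d + 2 : ℕ) : ℝ) := by exact_mod_cast h0
  have e : ((d + 2 : ℕ) : ℝ) = ((d + 1 : ℕ) : ℝ) + 1 := by push_cast; ring
  refine of_spc G d hn (by push_cast at h1; exact h1) ?_
  rw [e] at h h1
  rcases h with h | ⟨I, hI, h⟩ | ⟨f, hf, h⟩
  · exact spc_edges G _ hn h1 h
  · exact spc_ind G _ hn h1 I hI h
  · exact spc_lip G _ hn h1 f hf h

end Pool.Agent.Lib.MP_14e6e2_co.Ex
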