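import Pool.Agent.Lib.MP_14e6e2_co.Ex.HallA

/-! The exact Hall inequality: the two cases for the mass of a ray. -/

open MeasureTheory Set
open scoped ENNReal

namespace Pool.Agent.Lib.MP_14e6e2_co.Ex

theorem hi_add {f g : ℝ → ℝ} {a b : ℝ} (h : HI f a) (k : HI g b) :
    HI (fun v => f v + g v) (a + b) :=
  ⟨h.1.add k.1, h.2.1.add k.2.1, by rw [integral_add h.2.1 k.2.1, h.2.2, k.2.2]⟩

theorem hi_sum {m : ℕ} {f : Fin m → ℝ → ℝ} {a : Fin m → ℝ} (h : ∀ i, HI (f i) (a i)) :
    HI (fun v => ∑ i, f i v) (∑ i, a i) :=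
  ⟨Finset.measurable_sum _ fun i _ => (h i).1, integrable_finsetSum _ fun i _ => (h i).2.1, by
    rw [integral_finsetSum _ fun i _ => (h i).2.1]; simp [fun i => (h i).2.2]⟩

noncomputable def bx (s w v : ℝ) : ℝ := (Ico s (s + w)).indicator (fun _ => (1 : ℝ)) v

theorem hi_bx (s : ℝ) {w : ℝ} (hw : 0 ≤ w) : HI (bx s w) w :=
  ⟨measurable_const.indicator measurableSet_Ico,
    (integrable_indicator_iff measurableSet_Ico).2 (integrableOn_const (by simp)), by
    unfold bx
    rw [integral_indicator measurableSet_Ico]; simp [hw]⟩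

theorem er_shift {θ u s v : ℝ} (h1 : u ≤ s) (h2 : s ≤ v) :
    er θ u v = Real.exp (-(θ * (s - u))) * er θ s v := by
  rw [er, er, if_pos h2, if_pos (h1.trans h2), ← Real.exp_add]
  congr 1; ring

/-- the tilt -/
noncomputable def ps (θ s w v : ℝ) : ℝ := if v < s then θ else if v < s + w then w⁻¹ else 0

noncomputable def RR (θ s w u v : ℝ) : ℝ :=
  θ * (er θ u v - Real.exp (-(θ * (s - u))) * er θ s v) +
    w⁻¹ * (Real.exp (-(θ * (s - u))) - 2 * w) * bx s w v

noncomputable def SS (θ s w v : ℝ) : ℝ :=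
  θ * (er 1 0 v - Real.exp (-s) * er 1 s v) + w⁻¹ * Real.exp (-s) * bx s w v

theorem hi_RR {θ w : ℝ} (hθ : 0 < θ) (hw : 0 < w) (s u : ℝ) : HI (RR θ s w u) (1 - 2 * w) := by
  have := hi_add (((hi_er hθ u).sub ((hi_er hθ s).mul (Real.exp (-(θ * (s - u)))))).mul θ)
    ((hi_bx s hw.le).mul (w⁻¹ * (Real.exp (-(θ * (s - u))) - 2 * w)))
  convert this using 1
  · rfl
  · field_simp; ring

theorem hi_SS (θ : ℝ) {w : ℝ} (hw : 0 < w) (s : ℝ) :
    HI (SS θ s w) (θ * (1 - Real.exp (-s)) + Real.exp (-s)) := by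
  have := hi_add (((hi_er one_pos 0).sub ((hi_er one_pos s).mul (Real.exp (-s)))).mul θ)
    ((hi_bx s hw.le).mul (w⁻¹ * Real.exp (-s)))
  convert this using 1
  · rfl
  · field_simp

theorem RR_le {θ s w u : ℝ} (hθ : 0 ≤ θ) (h2 : θ ≤ 2) (hw : 0 < w) (hu : u ≤ s) (v : ℝ) :
    RR θ s w u v ≤ ps θ s w v * er θ u v := by
  unfold RR ps bx
  split_ifs with a1 a2
  · rw [indicator_of_notMem (fun h => a1.not_ge h.1), er.eq_1 θ s v, if_neg a1.not_ge]; simp
  · rw [not_lt] at a1
    rw [indicator_of_mem (show v ∈ Ico s (s + w) from ⟨a1, a2⟩), er_shift hu a1, sub_self,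
      mul_zero, zero_add, mul_one]
    refine mul_le_mul_of_nonneg_left ?_ (inv_pos.2 hw).le
    have q1 : Real.exp (-(θ * (s - u))) ≤ 1 := Real.exp_le_one_iff.2 (by nlinarith)
    have q0 := Real.exp_pos (-(θ * (s - u)))
    have q2 : 1 - 2 * w ≤ er θ s v := by
      rw [er, if_pos a1]
      have := Real.add_one_le_exp (-(θ * (v - s)))
      nlinarith
    nlinarith
  · rw [not_lt] at a1
    rw [indicator_of_notMem (fun h => a2 h.2), er_shift hu a1]; simp

theorem le_SS {θ s w v : ℝ} (hw : 0 < w) (hs : 0 ≤ s) (hv : 0 ≤ v) :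
    ps θ s w v * Real.exp (-v) ≤ SS θ s w v := by
  unfold SS ps bx
  have e1 : er 1 0 v = Real.exp (-v) := by simp [er, hv]
  split_ifs with a1 a2
  · rw [indicator_of_notMem (fun h => a1.not_ge h.1), er.eq_1 1 s v, if_neg a1.not_ge, e1]; simp
  · rw [not_lt] at a1
    rw [indicator_of_mem (show v ∈ Ico s (s + w) from ⟨a1, a2⟩), er_shift hs a1]
    simp only [one_mul, sub_zero, sub_self, mul_zero, zero_add, mul_one]
    exact mul_le_mul_of_nonneg_left (Real.exp_le_exp.2 (by linarith)) (inv_pos.2 hw).le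
  · rw [not_lt] at a1
    rw [indicator_of_notMem (fun h => a2 h.2), er_shift hs a1]; simp

theorem RR_out {θ s w u v : ℝ} (hw : 0 < w) (h0 : 0 ≤ u) (hu : u ≤ s)
    (hv : v < 0 ∨ s + w ≤ v) : RR θ s w u v = 0 := by
  unfold RR bx
  rcases hv with hv | hv
  · rw [indicator_of_notMem (fun h => by linarith [h.1]), er, er, if_neg (by linarith),
      if_neg (by linarith)]; simp
  · rw [indicator_of_notMem (fun h => by linarith [h.2]), er_shift hu (by linarith)]; simp

theorem SS_out {θ s w v : ℝ} (hw : 0 < w) (hs : 0 ≤ s)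
    (hv : v < 0 ∨ s + w ≤ v) : SS θ s w v = 0 := by
  unfold SS bx
  rcases hv with hv | hv
  · rw [indicator_of_notMem (fun h => by linarith [h.1]), er, er, if_neg (by linarith),
      if_neg (by linarith)]; simp
  · rw [indicator_of_notMem (fun h => by linarith [h.2]), er_shift hs (by linarith)]; simp

section
variable {m : ℕ} {M β θ L : ℝ}

theorem Fh_big (hL : 0 ≤ L) {v : ℝ} (hv : L < v) :
    2 * er 1 0 v - 2 * Real.exp (-L) * er 1 L v = 0 := by
  rw [er_shift hL hv.le]; simp; ring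

theorem Fh_mid (y : Fin (m + 1) → ℝ) {v : ℝ} (h0 : 0 ≤ v) (hv : v ≤ L) :
    Fh M β θ L y v ≤ 2 * Real.exp (-v) -
      (Real.exp (-(θ * v)) + β + β * ∑ i, er θ (uu M y i) v) := by
  have a1 : er 1 0 v = Real.exp (-v) := by simp [er, h0]
  have a2 : er θ 0 v = Real.exp (-(θ * v)) := by simp [er, h0]
  have a3 := mul_nonneg (Real.exp_pos (-L)).le (er_nonneg 1 L v)
  rw [Fh, indicator_of_mem (show v ∈ Icc 0 L from ⟨h0, hv⟩), a1, a2]
  unfold uu
  linarith

theorem hi_Fh' (hM : 0 < M) (hm : M = m + 2) (hβ : β * (M + 1) = 1) (hθ : θ = 2 * M * β)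
    (hL : 0 ≤ L) (y : Fin (m + 1) → ℝ) :
    HI (Fh M β θ L y) (1 - 2 * Real.exp (-L) - β * L) := by
  have b0 : 0 < β := by
    by_contra h
    nlinarith
  have t0 : 0 < θ := by rw [hθ]; positivity
  have hI := hi_Fh (M := M) (β := β) t0 hL y
  have e : 2 * (1 / 1) - 2 * Real.exp (-L) * (1 / 1) - 1 / θ - β * ((m + 1 : ℕ) * (1 / θ)) -
      β * L = 1 - 2 * Real.exp (-L) - β * L := by
    have : 1 / θ + β * ((m + 1 : ℕ) * (1 / θ)) = 1 := by
      field_simp
      rw [hθ]; push_cast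
      rw [show (m : ℝ) = M - 2 by linarith]
      linear_combination -hβ
    linarith
  rwa [e] at hI

theorem uu_le (hM : 0 < M) (y : Fin (m + 1) → ℝ) (hy : ∀ i, 0 ≤ y i) (i : Fin (m + 1)) :
    0 ≤ uu M y i ∧ uu M y i ≤ y i := by
  have m0 : 0 ≤ mn y := le_ciInf hy
  refine ⟨le_max_of_le_left (by linarith [mn_le y i]), max_le (by linarith) ?_⟩
  rw [div_le_iff₀ (by linarith)]
  nlinarith [hy i]

variable {C : Set (Fin (m + 1) → ℝ)}

theorem tc_le (hθ : 0 ≤ θ) (x : Fin (m + 2) → ℝ) (j : Fin (m + 2)) {u : ℝ}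
    (h : x j - mn x ≤ M * mn x → u ≤ M * mn x ∧ x j - mn x ≤ u) :
    tc M β θ C x j ≤ er θ u (M * mn x) := by
  unfold tc; split_ifs
  · exact er_mono hθ h
  · exact er_nonneg _ _ _

theorem rayA (hm1 : 1 ≤ m) (hm : M = m + 2) (hβ : β * (M + 1) = 1) (hθ : θ = 2 * M * β)
    (hL : 6 ≤ L) {ε : ℝ} (e0 : 0 < ε) (e1 : ε ≤ 1)
    (k : Fin (m + 2)) (y : Fin (m + 1) → ℝ) (hy : ∀ i, 0 ≤ y i) (hyC : y ∈ C)
    {s : ℝ} (s0 : 0 ≤ s) (s5 : s ≤ 5)
    (hs : ((m + 1 : ℕ) : ℝ) * (1 - Real.exp (-s) + ε) ≤ cnt y s) :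
    ENNReal.ofReal M⁻¹ * ENNReal.ofReal (1 - 2 * Real.exp (-L) - β * L + ε ^ 3 / 512) ≤
    ∫⁻ s, (Ici 0).indicator (fun s => ENNReal.ofReal
      (pc M β θ C (Fin.insertNth k s fun i => y i + β * s) k * Real.exp (-(θ * s)))) s := by
  have m1 : (1 : ℝ) ≤ m := by exact_mod_cast hm1
  have hM : 0 < M := by linarith
  have b0 : 0 < β := by
    by_contra h
    nlinarith
  have t0 : 0 < θ := by rw [hθ]; positivity
  have t2 : θ ≤ 2 := by rw [hθ]; nlinarith
  obtain ⟨w, hw⟩ : ∃ w, w = ε / 32 := ⟨_, rfl⟩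
  obtain ⟨η, hη⟩ : ∃ η, η = ε ^ 2 / 256 := ⟨_, rfl⟩
  have w0 : 0 < w := by rw [hw]; positivity
  have η0 : 0 < η := by rw [hη]; positivity
  have ηw : η * w⁻¹ = ε / 8 := by rw [hη, hw]; field_simp; norm_num
  let ι : Fin (m + 1) → ℝ := fun i => if uu M y i ≤ s then 1 else 0
  have hI := hi_add ((hi_Fh' hM hm hβ hθ (by linarith : 0 ≤ L) y).sub
    ((hi_SS θ w0 s).mul (2 * η))) ((hi_add (hi_RR t0 w0 s 0)
    ((hi_sum fun i => (hi_RR t0 w0 s (uu M y i)).mul (ι i)).mul β)).mul ((2 - ε / 8) * η))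
  have out : ∀ v, v < 0 ∨ s + w ≤ v → 2 * η * SS θ s w v = 0 ∧ (2 - ε / 8) * η *
      (RR θ s w 0 v + β * ∑ i, ι i * RR θ s w (uu M y i) v) = 0 := by
    intro v hv
    have : ∑ i, ι i * RR θ s w (uu M y i) v = 0 := Finset.sum_eq_zero fun i _ => by
      simp only [ι]
      split_ifs with h
      · rw [RR_out w0 (uu_le hM y hy i).1 h hv, mul_zero]
      · rw [zero_mul]
    rw [SS_out w0 s0 hv, RR_out w0 le_rfl s0 hv, this]; simp
  refine le_trans (mul_le_mul_right (ENNReal.ofReal_le_ofReal ?_) _)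
    (rayG (L := L) hM hβ hθ k y hy hyC _ (fun v => η * ps θ s w v)
      (fun i v => er θ (uu M y i) v) hI (fun v hv => ?_) (fun v hv => ?_) (fun v h0 hv => ?_)
      fun s x _ _ _ _ i h => tc_le t0.le x _ h)
  · have c1 : cnt y s ≤ ∑ i, ι i := Finset.sum_le_sum fun i _ => by
      simp only [ι]
      split_ifs with a b
      · exact le_rfl
      · exact absurd ((uu_le hM y hy i).2.trans a) b
      · exact zero_le_one
      · exact le_rfl
    have c2 : ∑ i, ι i ≤ ((m + 1 : ℕ) : ℝ) := by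
      refine (Finset.sum_le_sum fun i _ => show ι i ≤ 1 from ?_).trans (by simp)
      simp only [ι]; split_ifs <;> norm_num
    rw [← Finset.sum_mul]
    generalize ∑ i, ι i = T at *
    push_cast at hs c2
    have b1 : β * (m + 1) ≤ 1 := by rw [hm] at hβ; nlinarith
    have b2 : 1 / 2 ≤ β * (m + 1) := by rw [hm] at hβ; nlinarith
    have b3 : θ = 1 + β * (m + 1) := by rw [hθ]; rw [hm] at hβ ⊢; linarith
    have b4 : β * T ≤ 1 := (mul_le_mul_of_nonneg_left c2 b0.le).trans b1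
    have b5 : β * (m + 1) * (1 - Real.exp (-s) + ε) ≤ β * T := by
      rw [mul_assoc]; exact mul_le_mul_of_nonneg_left (hs.trans c1) b0.le
    have b6 : ε / 2 ≤ (2 - ε / 8) * (1 - 2 * w + β * (T * (1 - 2 * w))) -
        2 * (θ * (1 - Real.exp (-s)) + Real.exp (-s)) := by
      rw [b3, hw]
      have : ε / 2 ≤ β * (m + 1) * ε := by nlinarith
      have e : 1 - 2 * (ε / 32) + β * (T * (1 - 2 * (ε / 32))) = (1 - ε / 16) * (1 + β * T) := by
        ring
      rw [e]
      generalize β * T = B at *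
      generalize β * (m + 1) = A at *
      have B0 : 0 ≤ B := le_trans (mul_nonneg (by linarith) (by
        have := Real.exp_le_one_iff.2 (show -s ≤ 0 by linarith); linarith)) b5
      nlinarith [mul_nonneg e0.le (sub_nonneg.2 b4), mul_nonneg (sq_nonneg ε) B0, sq_nonneg ε]
    have b7 := mul_le_mul_of_nonneg_left b6 η0.le
    have b8 : η * (ε / 2) = ε ^ 3 / 512 := by rw [hη]; ring
    linarith
  · obtain ⟨o1, o2⟩ := out v (Or.inl hv)
    have := Fh_neg (M := M) (θ := θ) (L := L) b0.le y hv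
    simp only [o1, o2]; linarith
  · obtain ⟨o1, o2⟩ := out v (Or.inr (by rw [hw]; linarith))
    have := Fh_le (M := M) (θ := θ) (L := L) b0.le y v
    rw [Fh_big (by linarith) hv] at this
    simp only [o1, o2]; linarith
  · have a1 := Fh_mid (M := M) (β := β) (θ := θ) y h0 hv
    have a2 := le_SS (θ := θ) w0 s0 h0
    have a3 := RR_le t0.le t2 w0 s0 v
    have a4 : er θ 0 v = Real.exp (-(θ * v)) := by simp [er, h0]
    have p0 : 0 ≤ ps θ s w v := by
      unfold ps; split_ifs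
      · exact t0.le
      · positivity
      · exact le_rfl
    have p1 : η * ps θ s w v ≤ ε / 8 := by
      unfold ps; split_ifs
      · rw [hη]; nlinarith
      · exact ηw.le
      · rw [mul_zero]; positivity
    have a5 : ∑ i, ι i * RR θ s w (uu M y i) v ≤ ps θ s w v * ∑ i, er θ (uu M y i) v := by
      rw [Finset.mul_sum]
      refine Finset.sum_le_sum fun i _ => ?_
      simp only [ι]
      split_ifs with h
      · rw [one_mul]; exact RR_le t0.le t2 w0 h v
      · rw [zero_mul]; exact mul_nonneg p0 (er_nonneg _ _ _)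
    have a6 : 0 ≤ ∑ i, er θ (uu M y i) v := Finset.sum_nonneg fun i _ => er_nonneg _ _ _
    rw [a4] at a3
    have a7 := mul_le_mul_of_nonneg_left a5 b0.le
    have a8 : η * (RR θ s w 0 v + β * ∑ i, ι i * RR θ s w (uu M y i) v) ≤ η * ps θ s w v *
        (Real.exp (-(θ * v)) + β + β * ∑ i, er θ (uu M y i) v) := by
      rw [mul_assoc]
      refine mul_le_mul_of_nonneg_left ?_ η0.le
      nlinarith [mul_nonneg p0 b0.le]
    have a9 := mul_le_mul_of_nonneg_left a2 η0.le
    have H0 : 0 ≤ Real.exp (-(θ * v)) + β + β * ∑ i, er θ (uu M y i) v := by positivity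
    have q0 : 0 ≤ η * ps θ s w v := by positivity
    rw [← mul_assoc] at a9
    simp only [mul_assoc (2 - ε / 8), mul_assoc 2 η]
    generalize η * ps θ s w v = a at *
    generalize Real.exp (-(θ * v)) + β + β * ∑ i, er θ (uu M y i) v = H at *
    generalize η * (RR θ s w 0 v + β * ∑ i, ι i * RR θ s w (uu M y i) v) = R at *
    have a10 := mul_le_mul_of_nonneg_left a8 (show 0 ≤ 2 - ε / 8 by linarith)
    nlinarith [mul_nonneg (mul_nonneg q0 H0) (sub_nonneg.2 p1)]

theorem cnt_del (k j : Fin (m + 2)) (y : Fin (m + 1) → ℝ) (x : Fin (m + 2) → ℝ) {d s : ℝ}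
    (h1 : ∀ i, y i ≤ x (k.succAbove i)) (h2 : β * x j ≤ d) :
    cnt (del β x j) s ≤ 1 + cnt y (s + d) := by
  let f : Fin (m + 2) → ℝ := fun l => if x l ≤ s + d then 1 else 0
  have f0 : ∀ l, 0 ≤ f l := fun l => by simp only [f]; split_ifs <;> norm_num
  have f1 : ∀ l, f l ≤ 1 := fun l => by simp only [f]; split_ifs <;> norm_num
  have a1 : cnt (del β x j) s ≤ ∑ i, f (j.succAbove i) := Finset.sum_le_sum fun i _ => by
    split_ifs with h
    · simp only [f]; rw [if_pos (by unfold del at h; linarith)]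
    · exact f0 _
  have a2 : ∑ i, f (k.succAbove i) ≤ cnt y (s + d) := Finset.sum_le_sum fun i _ => by
    simp only [f]
    split_ifs with a b
    · exact le_rfl
    · exact absurd ((h1 i).trans a) b
    · exact zero_le_one
    · exact le_rfl
  have a3 := j.sum_univ_succAbove f
  have a4 := k.sum_univ_succAbove f
  linarith [f0 j, f1 k]

theorem rayB (hm : M = m + 2) (hβ : β * (M + 1) = 1) (hθ : θ = 2 * M * β)
    (hL : 6 ≤ L) {ε K : ℝ} (e0 : 0 < ε) (e1 : ε ≤ 1) (K0 : 0 ≤ K)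
    (hK : ε ^ 3 ≤ Real.exp (-(2 * K))) (hε : 1 + (m + 1) * (2 * β * L) ≤ (m + 1) * ε)
    (hC : ∀ z ∈ C, (∀ s, 0 ≤ s → s ≤ 4 →
      cnt z s ≤ ((m + 1 : ℕ) : ℝ) * (1 - Real.exp (-s) + 2 * ε)) → ∃ i, z i < K * β)
    (k : Fin (m + 2)) (y : Fin (m + 1) → ℝ) (hy : ∀ i, 0 ≤ y i) (hyC : y ∈ C)
    (hs : ∀ s, 0 ≤ s → s ≤ 5 → cnt y s ≤ ((m + 1 : ℕ) : ℝ) * (1 - Real.exp (-s) + ε)) :
    ENNReal.ofReal M⁻¹ * ENNReal.ofReal (1 - 2 * Real.exp (-L) - β * L + ε ^ 3 / 512) ≤
    ∫⁻ s, (Ici 0).indicator (fun s => ENNReal.ofReal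
      (pc M β θ C (Fin.insertNth k s fun i => y i + β * s) k * Real.exp (-(θ * s)))) s := by
  have m0 : (0 : ℝ) ≤ m := Nat.cast_nonneg m
  have hM : 0 < M := by linarith
  have b0 : 0 < β := by
    by_contra h
    nlinarith
  have t0 : 0 < θ := by rw [hθ]; positivity
  have t2 : θ ≤ 2 := by rw [hθ]; nlinarith
  have d0 : 0 ≤ 2 * β * L := by positivity
  have d1 : 2 * β * L ≤ 1 := by
    have : (m + 1) * (2 * β * L) ≤ (m + 1) * 1 := by nlinarith
    exact le_of_mul_le_mul_left this (by positivity)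
  have hI := hi_add (hi_Fh' hM hm hβ hθ (by linarith : 0 ≤ L) y)
    ((HI.sum fun i => (hi_er t0 (uu M y i + K)).mul (Real.exp (-(θ * K)))).mul β)
  have c0 : ∀ u v, Real.exp (-(θ * K)) * er θ (u + K) v ≤ er θ u v := by
    intro u v
    by_cases h : u + K ≤ v
    · rw [er_shift (show u ≤ u + K by linarith) h, add_sub_cancel_left]
    · rw [er, if_neg h, mul_zero]; exact er_nonneg _ _ _
  have c1 : ∀ v, Fh M β θ L y v + β * ∑ i, Real.exp (-(θ * K)) * er θ (uu M y i + K) v ≤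
      2 * er 1 0 v - 2 * Real.exp (-L) * er 1 L v := by
    intro v
    have h1 := er_nonneg θ 0 v
    have h2 := mul_le_mul_of_nonneg_left (Finset.sum_le_sum fun i (_ : i ∈ Finset.univ) =>
      c0 (uu M y i) v) b0.le
    have h3 : 0 ≤ β * (Icc 0 L).indicator (fun _ => (1 : ℝ)) v :=
      mul_nonneg b0.le (indicator_nonneg (fun _ _ => zero_le_one) v)
    unfold Fh; unfold uu at h2 ⊢; linarith
  refine le_trans (mul_le_mul_right (ENNReal.ofReal_le_ofReal ?_) _)
    (rayG (L := L) hM hβ hθ k y hy hyC _ (fun _ => 0)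
      (fun i v => er θ (uu M y i) v - Real.exp (-(θ * K)) * er θ (uu M y i + K) v) hI
      (fun v hv => ?_) (fun v hv => ?_) (fun v h0 hv => ?_) fun s x s0 hx v0 vL i h => ?_)
  · have a1 : ε ^ 3 ≤ Real.exp (-(θ * K)) := hK.trans (Real.exp_le_exp.2 (by nlinarith))
    have a2 : 1 / 6 ≤ β * (m + 1) * (1 / θ) := by
      rw [mul_one_div, le_div_iff₀ t0]
      rw [hm] at hβ; nlinarith
    have a3 := pow_pos e0 3
    push_cast
    nlinarith
  · refine (c1 v).trans ?_
    have := mul_nonneg (Real.exp_pos (-L)).le (er_nonneg 1 L v)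
    rw [er, if_neg hv.not_ge]; linarith
  · exact (c1 v).trans (Fh_big (by linarith) hv).le
  · have a1 := Fh_mid (M := M) (β := β) (θ := θ) y h0 hv
    simp only [Finset.sum_sub_distrib]
    linarith
  · by_cases hd : del β x (k.succAbove i) ∈ C
    · by_cases ha : x (k.succAbove i) - mn x ≤ M * mn x
      · have n0 : 0 ≤ mn x := le_of_mul_le_mul_left (by linarith) hM
        have x2 : β * x (k.succAbove i) ≤ 2 * β * L := by
          have : x (k.succAbove i) ≤ 2 * L := by nlinarith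
          nlinarith
        obtain ⟨l, hl⟩ := hC _ hd fun t t1 t4 => by
          have q1 := cnt_del (β := β) (s := t) k (k.succAbove i) y x (fun i => by
            have := mul_nonneg b0.le s0
            simp only [hx, Fin.insertNth_apply_succAbove]; linarith) x2
          have q2 := hs (t + 2 * β * L) (by linarith) (by linarith)
          have q3 : Real.exp (-t) - 2 * β * L ≤ Real.exp (-(t + 2 * β * L)) := by
            rw [neg_add, Real.exp_add]
            have r1 := Real.add_one_le_exp (-(2 * β * L))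
            have r2 := Real.exp_le_one_iff.2 (show -t ≤ 0 by linarith)
            have r3 := Real.exp_pos (-t)
            nlinarith
          have q4 := mul_le_mul_of_nonneg_left q3 (show (0 : ℝ) ≤ m + 1 by positivity)
          push_cast at q2 ⊢
          linarith
        have q5 : M * mn x < uu M y i + K := by
          have r1 := mn_le x ((k.succAbove i).succAbove l)
          have r2 := (h ha).2
          unfold del at hl
          have r3 : β * ((M + 1) * mn x - x (k.succAbove i)) < β * K := by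
            rw [mul_sub, ← mul_assoc, hβ]; linarith
          have r4 := lt_of_mul_lt_mul_left r3 b0.le
          linarith
        rw [er.eq_1 θ (uu M y i + K), if_neg q5.not_ge, mul_zero, sub_zero]
        exact tc_le t0.le x _ h
      · rw [tc, if_pos hd, tm, er, if_neg ha]
        exact sub_nonneg.2 (c0 _ _)
    · rw [tc, if_neg hd]
      exact sub_nonneg.2 (c0 _ _)

end

theorem hall_st : HallSt := by
  intro m M β L ε K hm1 hm hβ hL e0 e1 K0 hK hε C C' hC hC' h0 h hz
  have hM : 0 < M := by rw [hm]; positivity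
  refine hallG (θ := 2 * M * β) hM hβ rfl hm hC hC' h fun y hy k => ?_
  by_cases hs : ∀ s, 0 ≤ s → s ≤ 5 → cnt y s ≤ ((m + 1 : ℕ) : ℝ) * (1 - Real.exp (-s) + ε)
  · exact rayB hm hβ rfl hL e0 e1 K0 hK hε hz k y (h0 hy) hy hs
  · simp only [not_forall, not_le] at hs
    obtain ⟨s, s0, s5, hs⟩ := hs
    exact rayA hm1 hm hβ rfl hL e0 e1 k y (h0 hy) hy s0 s5 hs.le

end Pool.Agent.Lib.MP_14e6e2_co.Ex
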