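import Pool.Agent.Lib.MP_14e6e2_co.Ex.St

/-! Weights renormalised on the deletions that stay in a given set. -/

open MeasureTheory Set
open scoped ENNReal

namespace Pool.Agent.Lib.MP_14e6e2_co.Ex

section
variable {m : ℕ} (M β θ : ℝ)

def del (x : Fin (m + 2) → ℝ) (j : Fin (m + 2)) : Fin (m + 1) → ℝ :=
  fun i => x (j.succAbove i) - β * x j

variable (C : Set (Fin (m + 1) → ℝ))

open Classical in
noncomputable def oc (x : Fin (m + 2) → ℝ) (j : Fin (m + 2)) : ℝ :=
  if del β x j ∈ C then om M β θ x j else 0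

open Classical in
noncomputable def tc (x : Fin (m + 2) → ℝ) (j : Fin (m + 2)) : ℝ :=
  if del β x j ∈ C then tm M θ x j else 0

noncomputable def pc (x : Fin (m + 2) → ℝ) (k : Fin (m + 2)) : ℝ :=
  oc M β θ C x k / ∑ j, oc M β θ C x j

theorem meas_om (k : Fin (m + 2)) : Measurable fun x : Fin (m + 2) → ℝ => om M β θ x k := by
  have h1 : Measurable fun x : Fin (m + 2) → ℝ => M * mn x := meas_mn.const_mul M
  have h2 : Measurable fun x : Fin (m + 2) → ℝ => Real.exp (-(θ * (M * mn x))) :=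
    (h1.const_mul θ).neg.exp
  have h3 : MeasurableSet {x : Fin (m + 2) → ℝ | ∀ j, j ≠ k → x k < x j} := by
    simp only [ofPred_forall]
    exact MeasurableSet.iInter fun j => MeasurableSet.iInter fun _ =>
      measurableSet_lt (measurable_pi_apply k) (measurable_pi_apply j)
  exact Measurable.ite h3 h2 ((meas_tm M θ k).const_mul β)

variable {C}

theorem meas_pc (hC : MeasurableSet C) (k : Fin (m + 2)) :
    Measurable fun x : Fin (m + 2) → ℝ => pc M β θ C x k := by
  have h : ∀ j, Measurable fun x : Fin (m + 2) → ℝ => oc M β θ C x j := fun j => by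
    have hd : Measurable fun x : Fin (m + 2) → ℝ => del β x j := by
      unfold del; fun_prop
    exact Measurable.ite (hd hC) (meas_om M β θ j) measurable_const
  exact (h k).div (Finset.measurable_sum _ fun j _ => h j)

variable {M β θ}

theorem oc_nonneg (hβ : 0 ≤ β) (x : Fin (m + 2) → ℝ) (k : Fin (m + 2)) :
    0 ≤ oc M β θ C x k := by
  unfold oc; split_ifs
  · exact om_nonneg hβ x k
  · exact le_rfl

theorem pc_nonneg (hβ : 0 ≤ β) (x : Fin (m + 2) → ℝ) (k : Fin (m + 2)) :
    0 ≤ pc M β θ C x k :=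
  div_nonneg (oc_nonneg hβ x k) (Finset.sum_nonneg fun j _ => oc_nonneg hβ x j)

theorem sum_pc (x : Fin (m + 2) → ℝ) : ∑ k, pc M β θ C x k ≤ 1 := by
  unfold pc
  rw [← Finset.sum_div]
  exact div_self_le_one _

theorem sum_oc (hβ : 0 ≤ β) (x : Fin (m + 2) → ℝ) :
    ∑ j, oc M β θ C x j ≤ Real.exp (-(θ * (M * mn x))) + β * ∑ j, tc M β θ C x j := by
  classical
  have he := Real.exp_pos (-(θ * (M * mn x)))
  have h1 : ∀ j, oc M β θ C x j ≤
      (if ∀ l, l ≠ j → x j < x l then Real.exp (-(θ * (M * mn x))) else 0) +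
        β * tc M β θ C x j := by
    intro j
    have := mul_nonneg hβ (show 0 ≤ tm M θ x j from er_nonneg _ _ _)
    unfold oc tc om
    split_ifs <;> linarith
  have h2 : ∑ j, (if ∀ l, l ≠ j → x j < x l then Real.exp (-(θ * (M * mn x))) else 0) ≤
      Real.exp (-(θ * (M * mn x))) := by
    rw [← Finset.sum_filter, Finset.sum_const, nsmul_eq_mul]
    have : (Finset.univ.filter fun j => ∀ l, l ≠ j → x j < x l).card ≤ 1 := by
      refine Finset.card_le_one.2 fun a ha b hb => ?_
      by_contra hab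
      exact ((Finset.mem_filter.1 ha).2 b (Ne.symm hab)).not_gt ((Finset.mem_filter.1 hb).2 a hab)
    have h3 : ((Finset.univ.filter fun j => ∀ l, l ≠ j → x j < x l).card : ℝ) ≤ 1 := by
      exact_mod_cast this
    nlinarith
  refine (Finset.sum_le_sum fun j _ => h1 j).trans ?_
  rw [Finset.sum_add_distrib, ← Finset.mul_sum]
  linarith

theorem tangent {o H t : ℝ} (h0 : 0 ≤ o) (h1 : o ≤ H) : o * (2 * t - t ^ 2 * H) ≤ o / H := by
  rcases eq_or_lt_of_le (h0.trans h1) with h | h
  · have : o = 0 := le_antisymm (h ▸ h1) h0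
    simp [this]
  · rw [div_eq_mul_inv]
    refine mul_le_mul_of_nonneg_left ?_ h0
    rw [← mul_le_mul_iff_left₀ h, inv_mul_cancel₀ h.ne']
    nlinarith [sq_nonneg (1 - t * H)]

theorem pc_bound (hβ : 0 ≤ β) (hθ : 0 ≤ θ) (x : Fin (m + 2) → ℝ) (k : Fin (m + 2))
    (hk : del β x k ∈ C) {v κ s a : ℝ} (hκ : 0 ≤ κ) (hv : M * mn x = v) (c : Fin (m + 1) → ℝ)
    (h1 : ∀ i, tc M β θ C x (k.succAbove i) ≤ c i)
    (h2 : om M β θ x k * Real.exp v * Real.exp (-(θ * s)) = κ * Real.exp (-v)) :
    κ * (2 * (1 - a) * Real.exp (-v) -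
      (1 - a) ^ 2 * (Real.exp (-(θ * v)) + β + β * ∑ i, c i)) ≤
      pc M β θ C x k * Real.exp (-(θ * s)) := by
  have e1 : oc M β θ C x k = om M β θ x k := if_pos hk
  have t1 := tangent (t := Real.exp v * (1 - a)) (oc_nonneg (M := M) (θ := θ) (C := C) hβ x k)
    (Finset.single_le_sum (f := fun j => oc M β θ C x j) (fun j _ => oc_nonneg hβ x j)
      (Finset.mem_univ k))
  have t2 := sum_oc (M := M) (θ := θ) (C := C) hβ x
  rw [hv, k.sum_univ_succAbove (fun j => tc M β θ C x j)] at t2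
  have t3 : tc M β θ C x k ≤ 1 := by
    rw [tc, if_pos hk]
    exact er_le_one hθ _ _
  have t4 : ∑ i, tc M β θ C x (k.succAbove i) ≤ ∑ i, c i := Finset.sum_le_sum fun i _ => h1 i
  have t5 : ∑ j, oc M β θ C x j ≤ Real.exp (-(θ * v)) + β + β * ∑ i, c i := by
    have := mul_le_mul_of_nonneg_left (add_le_add t3 t4) hβ
    linarith
  refine le_trans ?_ (mul_le_mul_of_nonneg_right t1 (Real.exp_pos _).le)
  rw [e1]
  generalize ∑ j, oc M β θ C x j = H at *
  have ee : Real.exp v * Real.exp (-v) = 1 := by rw [← Real.exp_add]; simp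
  have e2 : om M β θ x k * (2 * (Real.exp v * (1 - a)) - (Real.exp v * (1 - a)) ^ 2 * H) *
      Real.exp (-(θ * s)) = κ * (2 * (1 - a) * Real.exp (-v) - (1 - a) ^ 2 * H) := by
    linear_combination (2 * (1 - a) - Real.exp v * (1 - a) ^ 2 * H) * h2 -
      κ * (1 - a) ^ 2 * H * ee
  rw [e2]
  refine mul_le_mul_of_nonneg_left ?_ hκ
  have := mul_le_mul_of_nonneg_left t5 (sq_nonneg (1 - a))
  linarith

/-- the position at which a coordinate becomes admissible -/
noncomputable def uu (M : ℝ) (y : Fin (m + 1) → ℝ) (i : Fin (m + 1)) : ℝ :=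
  max (y i - mn y) ((M + 1) * y i / (M + 2))

theorem geo (hM : 0 < M) (hβ : β * (M + 1) = 1) (hθ : θ = 2 * M * β)
    (k : Fin (m + 2)) (y : Fin (m + 1) → ℝ) (hy : ∀ i, 0 ≤ y i) {s : ℝ} (hs : 0 ≤ s)
    (x : Fin (m + 2) → ℝ) (hx : x = Fin.insertNth k s fun i => y i + β * s) {v κ : ℝ}
    (hv : v = if s < (M + 1) * mn y / M then M * s else M * mn y + M * β * s)
    (hκ : κ = if s < (M + 1) * mn y / M then 1 else β) :
    M * mn x = v ∧ 0 ≤ v ∧ (∀ i, x (k.succAbove i) - mn x ≤ v → uu M y i ≤ v ∧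
      x (k.succAbove i) - mn x ≤ uu M y i) ∧
      om M β θ x k * Real.exp v * Real.exp (-(θ * s)) = κ * Real.exp (-v) := by
  have b0 : 0 < β := by
    by_contra h
    nlinarith
  have t0 : 0 ≤ θ := by rw [hθ]; positivity
  obtain ⟨i0, hi0⟩ : ∃ i, y i = mn y := exists_eq_ciInf_of_finite
  have m0 : 0 ≤ mn y := hi0 ▸ hy i0
  have xk : x k = s := by simp [hx]
  have xi : ∀ i, x (k.succAbove i) = y i + β * s := fun i => by simp [hx]
  have hM2 : 0 < M + 2 := by linarith
  have eβ : β * M = 1 - β := by linarith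
  unfold uu
  by_cases h : s < (M + 1) * mn y / M
  · rw [if_pos h] at hv hκ
    subst hv hκ
    rw [lt_div_iff₀ hM] at h
    have c1 : s < mn y + β * s := by
      have := mul_lt_mul_of_pos_left h b0
      rw [← mul_assoc β (M + 1), hβ, mul_comm s, ← mul_assoc, eβ] at this
      linarith
    have c2 : ∀ j, j ≠ k → x k < x j := by
      intro j hj
      obtain ⟨i, rfl⟩ := Fin.exists_succAbove_eq hj
      rw [xk, xi]; linarith [mn_le y i]
    have c3 : mn x = s := by
      rw [← xk]
      refine mn_eq x k fun j => ?_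
      by_cases hj : j = k
      · rw [hj]
      · exact (c2 j hj).le
    refine ⟨by rw [c3], by positivity, fun i hi => ?_, ?_⟩
    · rw [xi, c3] at hi ⊢
      have d1 : (M + 1) * y i ≤ M * s * (M + 2) := by
        have := mul_le_mul_of_nonneg_left hi (by linarith : 0 ≤ M + 1)
        have e : (M + 1) * (β * s) = s := by rw [← mul_assoc, mul_comm (M + 1), hβ, one_mul]
        nlinarith
      refine ⟨max_le (by linarith) ((div_le_iff₀ hM2).2 d1), le_max_of_le_right ?_⟩
      rw [le_div_iff₀ hM2]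
      have := mul_le_mul_of_nonneg_left d1 b0.le
      have e1 : β * ((M + 1) * y i) = y i := by rw [← mul_assoc, hβ, one_mul]
      have e2 : β * (M * s * (M + 2)) = (s - β * s) * (M + 2) := by
        rw [← mul_assoc, ← mul_assoc, eβ]; ring
      rw [e1, e2] at this
      nlinarith
    · rw [om, if_pos c2, c3, ← Real.exp_add, ← Real.exp_add, one_mul]
      congr 1
      rw [hθ]
      linear_combination (-2 * M * s) * hβ
  · rw [if_neg h] at hv hκ
    subst hv hκ
    rw [not_lt, div_le_iff₀ hM] at h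
    have c1 : mn y + κ * s ≤ s := by
      have := mul_le_mul_of_nonneg_left h b0.le
      rw [← mul_assoc κ (M + 1), hβ, mul_comm s, ← mul_assoc, eβ] at this
      linarith
    have c2 : ¬ ∀ j, j ≠ k → x k < x j := fun hh => by
      have := hh _ (k.succAbove_ne i0)
      rw [xk, xi, hi0] at this; linarith
    have c3 : mn x = mn y + κ * s := by
      rw [← hi0, ← xi]
      refine mn_eq x _ ?_
      rw [k.forall_iff_succAbove]
      refine ⟨by rw [xk, xi, hi0]; exact c1, fun j => ?_⟩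
      rw [xi, xi, hi0]; linarith [mn_le y j]
    have e0 : (M + 1) * (κ * s) = s := by rw [← mul_assoc, mul_comm (M + 1), hβ, one_mul]
    refine ⟨by rw [c3]; ring, by positivity, fun i hi => ?_, ?_⟩
    · rw [xi, c3] at hi ⊢
      refine ⟨max_le (by linarith) ?_, le_max_of_le_left (by linarith)⟩
      rw [div_le_iff₀ hM2]
      have := mul_le_mul_of_nonneg_left hi (by linarith : 0 ≤ M + 1)
      have d2 : (M + 1) * mn y ≤ M * mn y + M * κ * s := by
        rw [mul_comm M κ, eβ]; linarith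
      nlinarith
    · have c4 : s - (mn y + κ * s) ≤ M * (mn y + κ * s) := by nlinarith
      rw [om, if_neg c2, tm, er, xk, c3, if_pos c4, mul_assoc, mul_assoc, ← Real.exp_add,
        ← Real.exp_add]
      congr 2
      rw [hθ]
      linear_combination (-2 * M * (mn y + κ * s)) * hβ

/-- the mass of one ray, for a general tangent point and general bounds on the other points -/
theorem rayG (hM : 0 < M) (hβ : β * (M + 1) = 1) (hθ : θ = 2 * M * β) {L I : ℝ}
    (k : Fin (m + 2)) (y : Fin (m + 1) → ℝ) (hy : ∀ i, 0 ≤ y i) (hyC : y ∈ C)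
    (F a : ℝ → ℝ) (c : Fin (m + 1) → ℝ → ℝ) (hI : HI F I)
    (f0 : ∀ v, v < 0 → F v ≤ 0) (fL : ∀ v, L < v → F v ≤ 0)
    (f1 : ∀ v, 0 ≤ v → v ≤ L → F v ≤ 2 * (1 - a v) * Real.exp (-v) -
      (1 - a v) ^ 2 * (Real.exp (-(θ * v)) + β + β * ∑ i, c i v))
    (hc : ∀ (s : ℝ) (x : Fin (m + 2) → ℝ), 0 ≤ s →
      (x = Fin.insertNth k s fun i => y i + β * s) → 0 ≤ M * mn x → M * mn x ≤ L → ∀ i,
      (x (k.succAbove i) - mn x ≤ M * mn x → uu M y i ≤ M * mn x ∧
        x (k.succAbove i) - mn x ≤ uu M y i) →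
      tc M β θ C x (k.succAbove i) ≤ c i (M * mn x)) :
    ENNReal.ofReal M⁻¹ * ENNReal.ofReal I ≤
    ∫⁻ s, (Ici 0).indicator (fun s => ENNReal.ofReal
      (pc M β θ C (Fin.insertNth k s fun i => y i + β * s) k * Real.exp (-(θ * s)))) s := by
  have b0 : 0 < β := by
    by_contra h
    nlinarith
  have t0 : 0 < θ := by rw [hθ]; positivity
  have m0 : 0 ≤ mn y := le_ciInf hy
  refine (mul_le_mul_right hI.le _).trans ?_
  rw [← cov (fun v => ENNReal.ofReal (F v)) hI.1.ennreal_ofReal hM b0 (mn y)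
    ((M + 1) * mn y / M) (by field_simp; linear_combination (-mn y) * hβ)]
  refine lintegral_mono fun s => ?_
  by_cases hs : 0 ≤ s
  · rw [indicator_of_mem (show s ∈ Ici 0 from hs)]
    obtain ⟨x, hx⟩ : ∃ x : Fin (m + 2) → ℝ, x = Fin.insertNth k s fun i => y i + β * s := ⟨_, rfl⟩
    obtain ⟨v, hv⟩ : ∃ v, v = if s < (M + 1) * mn y / M then M * s else M * mn y + M * β * s :=
      ⟨_, rfl⟩
    obtain ⟨κ, hκ⟩ : ∃ κ, κ = if s < (M + 1) * mn y / M then 1 else β := ⟨_, rfl⟩
    obtain ⟨g1, g2, g3, g4⟩ := geo hM hβ hθ k y hy hs x hx hv hκ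
    have k0 : 0 ≤ κ := by
      rw [hκ]; split_ifs
      · exact zero_le_one
      · exact b0.le
    have hd : del β x k = y := by
      ext i; simp [del, hx]
    have key : κ * F v ≤ pc M β θ C x k * Real.exp (-(θ * s)) := by
      by_cases hL : v ≤ L
      · refine le_trans (mul_le_mul_of_nonneg_left (f1 v g2 hL) k0) ?_
        refine pc_bound b0.le t0.le x k (hd ▸ hyC) k0 g1 (fun i => c i v) (fun i => ?_) g4
        have := hc s x hs hx (g1 ▸ g2) (g1 ▸ hL) i (g1 ▸ g3 i)
        rwa [g1] at this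
      · exact (mul_nonpos_of_nonneg_of_nonpos k0 (fL v (not_le.1 hL))).trans
          (mul_nonneg (pc_nonneg b0.le x k) (Real.exp_pos _).le)
    rw [← hx]
    refine le_trans (le_of_eq ?_) (ENNReal.ofReal_le_ofReal key)
    rw [hv, hκ]
    split_ifs
    · rw [one_mul]
    · rw [ENNReal.ofReal_mul b0.le]
  · have h1 : s < (M + 1) * mn y / M := (not_le.1 hs).trans_le (by positivity)
    simp only [if_pos h1]
    rw [ENNReal.ofReal_of_nonpos (f0 _ (mul_neg_of_pos_of_neg hM (not_le.1 hs)))]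
    exact zero_le

/-- from the rays to the sets -/
theorem hallG (hM : 0 < M) (hβ : β * (M + 1) = 1) (hθ : θ = 2 * M * β) {I : ℝ}
    (hm : M = m + 2) {C' : Set (Fin (m + 2) → ℝ)}
    (hC : MeasurableSet C) (hC' : MeasurableSet C')
    (h : ∀ y ∈ C, ∀ s : ℝ, 0 ≤ s → ∀ k : Fin (m + 2),
      (Fin.insertNth k s fun i => y i + β * s) ∈ C')
    (hr : ∀ y ∈ C, ∀ k : Fin (m + 2), ENNReal.ofReal M⁻¹ * ENNReal.ofReal I ≤
      ∫⁻ s, (Ici 0).indicator (fun s => ENNReal.ofReal
        (pc M β θ C (Fin.insertNth k s fun i => y i + β * s) k * Real.exp (-(θ * s)))) s) :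
    ENNReal.ofReal I * E C ≤ E C' := by
  have b0 : 0 < β := by
    by_contra h
    nlinarith
  let g : (Fin (m + 2) → ℝ) → ℝ≥0∞ :=
    C'.indicator fun x => ENNReal.ofReal (Real.exp (-∑ i, x i))
  let f : Fin (m + 2) → (Fin (m + 2) → ℝ) → ℝ≥0∞ :=
    fun k x => ENNReal.ofReal (pc M β θ C x k) * g x
  have hf : ∀ k, Measurable (f k) := fun k =>
    (meas_pc M β θ hC k).ennreal_ofReal.mul (meas_dens hC')
  have s1 : ∑ k, ∫⁻ x, f k x ≤ E C' := by
    rw [← lintegral_finsetSum _ fun k _ => hf k]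
    refine lintegral_mono fun x => ?_
    simp only [f]
    rw [← Finset.sum_mul, ← ENNReal.ofReal_sum_of_nonneg fun k _ => pc_nonneg b0.le x k]
    exact mul_le_of_le_one_left' (ENNReal.ofReal_le_one.2 (sum_pc x))
  have s2 : ∀ k, ENNReal.ofReal M⁻¹ * ENNReal.ofReal I * E C ≤ ∫⁻ x, f k x := by
    intro k
    have e1 : ∀ s : ℝ, ∫⁻ u : Fin (m + 1) → ℝ, f k (Fin.insertNth k s u) =
        ∫⁻ y : Fin (m + 1) → ℝ, f k (Fin.insertNth k s fun i => y i + β * s) := by
      intro s
      rw [← lintegral_add_right_eq_self _ (fun _ => β * s)]; rfl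
    have mT : Measurable fun p : ℝ × (Fin (m + 1) → ℝ) =>
        (Fin.insertNth k p.1 (fun i => p.2 i + β * p.1) : Fin (m + 2) → ℝ) :=
      (meas_ins k).comp (f := fun p : ℝ × (Fin (m + 1) → ℝ) => (p.1, fun i => p.2 i + β * p.1))
        (by fun_prop)
    rw [fub k _ (hf k)]
    simp only [e1]
    rw [lintegral_lintegral_swap (by exact ((hf k).comp mT).aemeasurable), E,
      ← lintegral_const_mul _ (meas_dens hC)]
    refine lintegral_mono fun y => ?_
    by_cases hy : y ∈ C
    · simp only [indicator_of_mem hy]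
      refine (mul_le_mul_left (hr y hy k) _).trans ?_
      rw [← lintegral_mul_const' _ _ ENNReal.ofReal_ne_top]
      refine lintegral_mono fun s => ?_
      by_cases hs : 0 ≤ s
      · simp only [f, g]
        rw [indicator_of_mem (show s ∈ Ici 0 from hs), indicator_of_mem (h y hy s hs k),
          ENNReal.ofReal_mul (pc_nonneg b0.le _ _), mul_assoc,
          ← ENNReal.ofReal_mul (Real.exp_pos _).le, ← Real.exp_add, k.sum_univ_succAbove]
        refine le_of_eq ?_
        congr 3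
        simp only [Fin.insertNth_apply_same, Fin.insertNth_apply_succAbove,
          Finset.sum_add_distrib, Finset.sum_const, Finset.card_univ, Fintype.card_fin,
          nsmul_eq_mul]
        push_cast
        rw [hθ, show (m : ℝ) = M - 2 by linarith]
        linear_combination (-s) * hβ
      · simp only [indicator_of_notMem (show s ∉ Ici 0 from hs), zero_mul]
        exact zero_le
    · simp only [indicator_of_notMem hy, mul_zero]
      exact zero_le
  refine le_trans (le_of_eq ?_) ((Finset.sum_le_sum fun k _ => s2 k).trans s1)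
  rw [Finset.sum_const, Finset.card_univ, Fintype.card_fin, nsmul_eq_mul, ← mul_assoc, ← mul_assoc,
    ← ENNReal.ofReal_natCast, ← ENNReal.ofReal_mul (Nat.cast_nonneg _)]
  push_cast
  rw [← hm, mul_inv_cancel₀ hM.ne', ENNReal.ofReal_one, one_mul]

end

end Pool.Agent.Lib.MP_14e6e2_co.Ex
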