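import Pool.Agent.Lib.MP_14e6e2_co.Main

/-! Statements of the steps of the exact comparison for three families of graphs. -/

open MeasureTheory Set
open scoped ENNReal

namespace Pool.Agent.Lib.MP_14e6e2_co.Ex

/-- the number of coordinates that are at most `s` -/
noncomputable def cnt {m : ℕ} (y : Fin m → ℝ) (s : ℝ) : ℝ := ∑ i, if y i ≤ s then (1 : ℝ) else 0

/-- a cone has almost all its mass where the sum is small -/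
def TailSt : Prop := ∀ (N : ℕ) (C : Set (Fin N → ℝ)), 0 < N → MeasurableSet C → C ⊆ orth N →
  (∀ l ∈ C, ∀ r : ℝ, 0 < r → r • l ∈ C) →
  E C ≤ E (C ∩ {z | ∑ i, z i ≤ 1.002 * N}) + ENNReal.ofReal (10 ^ 6 / N) * E C

/-- upper bound for the product of the eigenvalues -/
def DetSt : Prop := ∀ (V : Type) [Fintype V] [DecidableEq V] (G : SimpleGraph V) (N : ℕ),
  Fintype.card V = N + 1 → ∀ z ∈ cone G N, ∀ c x a : ℝ, 0 < c → 0 < x → 0 ≤ a →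
  c * x ^ (N + 1) * ∏ i, (z i + c) ≤ (1 + x * c) ^ (N + 1) *
    Real.exp (G.edgeSet.ncard * (Real.log (1 + a) - a / (1 + a)) + x * ((∑ i, z i) / 2) / (1 + a))

/-- lower bound for the sum of the logarithms -/
def LogSt : Prop := ∀ (N : ℕ) (z : Fin N → ℝ) (a ε : ℝ), 0 < a → a ≤ 1 → 0 ≤ ε → (∀ i, a ≤ z i) →
  (∀ s, 0 ≤ s → s ≤ 4 → cnt z s ≤ N * (1 - Real.exp (-s) + ε)) →
  N * (-0.582 - ε * Real.log (4 / a)) ≤ ∑ i, Real.log (z i)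

/-- layer cake bound -/
def LayerSt : Prop := ∀ (N : ℕ) (z : Fin N → ℝ) (ε : ℝ), 0 ≤ ε → (∀ i, 0 ≤ z i) →
  (∀ s, 0 ≤ s → s ≤ 4 → cnt z s ≤ N * (1 - Real.exp (-s) + ε)) →
  ∑ i, max (1.7 - z i) 0 ≤ N * (0.883 + 1.7 * ε)

/-- independent sets -/
def IndSt : Prop := ∀ (V : Type) [Fintype V] [DecidableEq V] (G : SimpleGraph V) (N : ℕ),
  Fintype.card V = N + 1 → ∀ z ∈ cone G N, ∀ I : Finset V, G.IsIndepSet (I : Set V) →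
  ∀ s : ℝ, 0 ≤ s → s * I.card - s - ∑ i, max (s - z i) 0 ≤ (∑ i, z i) / 2

/-- Rayleigh quotient of a Lipschitz function -/
def LipSt : Prop := ∀ (V : Type) [Fintype V] [DecidableEq V] (G : SimpleGraph V) (N : ℕ),
  Fintype.card V = N + 1 → ∀ z ∈ cone G N, ∀ f : V → ℝ, (∀ u v, G.Adj u v → |f u - f v| ≤ 1) →
  ∀ ρ : ℝ, 0 < ρ → (∀ i, ρ ≤ z i) → ρ * ∑ u, ∑ v, (f u - f v) ^ 2 ≤ (N + 1) * ∑ i, z i

/-- the exact Hall inequality -/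
def HallSt : Prop := ∀ (m : ℕ) (M β L ε K : ℝ), 1 ≤ m → M = m + 2 → β * (M + 1) = 1 → 6 ≤ L →
  0 < ε → ε ≤ 1 → 0 ≤ K → ε ^ 3 ≤ Real.exp (-(2 * K)) → 1 + (m + 1) * (2 * β * L) ≤ (m + 1) * ε →
  ∀ (C : Set (Fin (m + 1) → ℝ)) (C' : Set (Fin (m + 2) → ℝ)), MeasurableSet C →
  MeasurableSet C' → C ⊆ orth _ →
  (∀ y ∈ C, ∀ s : ℝ, 0 ≤ s → ∀ k : Fin (m + 2),
    (Fin.insertNth k s fun i => y i + β * s) ∈ C') →
  (∀ z ∈ C, (∀ s, 0 ≤ s → s ≤ 4 →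
    cnt z s ≤ ((m + 1 : ℕ) : ℝ) * (1 - Real.exp (-s) + 2 * ε)) → ∃ i, z i < K * β) →
  ENNReal.ofReal (1 - 2 * Real.exp (-L) - β * L + ε ^ 3 / 512) * E C ≤ E C'

end Pool.Agent.Lib.MP_14e6e2_co.Ex
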